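import Pool.Agent.helper13.BN.Defs2
import Pool.Agent.helper23.BN.Basic
import Pool.Agent.helper58.BN.Solve
import Pool.Agent.helper52.BN.Ode
import Pool.Agent.helper19.BN.AxInt
import Pool.Agent.helper73.BN.Zonal
import Pool.Agent.helper40.BN.Lap
import Pool.Agent.helper22.BN.Smooth
import Pool.Agent.helper73.BN.Moments

set_option autoImplicit false

/-!
# MP_94a57f_an: eigenfunctions of the annulus (module C4a)
-/

open MeasureTheory Filter Topology Set Metric
open scoped ContDiff Gradient RealInnerProductSpace ENNReal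

noncomputable section
namespace Pool.Agent.helper13.BN
variable {N : ℕ}

namespace C4a

theorem two_le_inf : (2 : WithTop ℕ∞) ≤ ((⊤ : ℕ∞) : WithTop ℕ∞) := WithTop.coe_le_coe.2 (le_top : (2 : ℕ∞) ≤ ⊤)

/-! ### elementary facts on `cyl` -/

theorem isOpen_ann (ρ : ℝ) : IsOpen (ann N ρ) := by
  have h1 : IsOpen {x : E N | ρ < ‖x‖} := isOpen_lt continuous_const continuous_norm
  have h2 : IsOpen {x : E N | ‖x‖ < 1} := isOpen_lt continuous_norm continuous_const
  exact h1.inter h2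

theorem ann_subset (ρ : ℝ) : ann N ρ ⊆ ball 0 1 := fun x hx => by
  simpa using hx.2

theorem ann_ne_zero {ρ : ℝ} (hρ : 0 < ρ) {x : E N} (hx : x ∈ ann N ρ) : x ≠ 0 := by
  intro h
  have := hx.1
  rw [h, norm_zero] at this
  linarith

/-- continuity of `cyl` away from the origin -/
theorem cyl_contDiffAt {e : E N} {y q : ℝ → ℝ} {n : WithTop ℕ∞} (hy : ContDiff ℝ n y)
    (hq : ContDiff ℝ n q) {x : E N} (hx : x ≠ 0) : ContDiffAt ℝ n (cyl N e y q) x := by
  have hn : ContDiffAt ℝ n (fun x : E N => ‖x‖) x := contDiffAt_norm ℝ hx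
  have hx' : ‖x‖ ≠ 0 := norm_ne_zero_iff.2 hx
  have h1 : ContDiffAt ℝ n (fun x : E N => ‖x‖ ^ (-cc N)) x := hn.rpow_const_of_ne hx'
  have h2 : ContDiffAt ℝ n (fun x : E N => y (-Real.log ‖x‖)) x :=
    hy.contDiffAt.comp x ((hn.log hx').neg)
  have h3 : ContDiffAt ℝ n (fun x : E N => q (⟪x, e⟫ / ‖x‖)) x :=
    hq.contDiffAt.comp x ((contDiffAt_id.inner ℝ contDiffAt_const).div hn hx')
  exact (h1.mul h2).mul h3

theorem cyl_continuousOn {e : E N} {ρ : ℝ} (hρ : 0 < ρ) {y q : ℝ → ℝ} (hy : Continuous y)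
    (hq : Continuous q) : ContinuousOn (cyl N e y q) (ann N ρ) := fun x hx =>
  (cyl_contDiffAt (n := 0) (contDiff_zero.2 hy) (contDiff_zero.2 hq)
    (ann_ne_zero hρ hx)).continuousAt.continuousWithinAt

theorem cyl_meas {e : E N} {y q : ℝ → ℝ} (hy : Measurable y) (hq : Measurable q) :
    Measurable (cyl N e y q) := by
  unfold cyl
  have h1 : Measurable (fun x : E N => ‖x‖) := measurable_norm
  have h2 : Measurable (fun x : E N => ⟪x, e⟫) := (continuous_id.inner continuous_const).measurable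
  exact ((h1.pow_const _).mul (hy.comp (Real.measurable_log.comp h1).neg)).mul
    (hq.comp (h2.div h1))

theorem abs_s_le {e : E N} (he : ‖e‖ = 1) (x : E N) : |⟪x, e⟫ / ‖x‖| ≤ 1 := by
  rcases eq_or_ne x 0 with h | h
  · simp [h]
  · have hx : 0 < ‖x‖ := norm_pos_iff.2 h
    rw [abs_div, abs_of_pos hx, div_le_one hx]
    have := abs_real_inner_le_norm x e
    rwa [he, mul_one] at this

/-- equation of the eigenfunctions -/
theorem lap_eig (hN : 3 ≤ N) {e : E N} (he : ‖e‖ = 1) (j : ℕ) (lam : ℝ) {x : E N} (hx : x ≠ 0) :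
    lap (cyl N e (yf (j + cc N) lam) (Pz N j)) x
      = - (lam * cyl N e (yf (j + cc N) lam) (Pz N j) x) := by
  have hr : 0 < ‖x‖ := norm_pos_iff.2 hx
  rw [lap_cyl he hx ((yf_contDiff _ _).of_le two_le_inf)
    ((Pz_contDiff N j).of_le two_le_inf)]
  rw [Pz_ode N j hN, yf_deriv2]
  have h1 : ‖x‖ ^ (-cc N - 2) = ‖x‖ ^ (-cc N) / ‖x‖ ^ 2 := by
    rw [Real.rpow_sub hr]
    norm_num
  have h2 : qf (j + cc N) lam (-Real.log ‖x‖) = ((j : ℝ) + cc N) ^ 2 - lam * ‖x‖ ^ 2 := by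
    unfold qf
    congr 2
    rw [show -2 * -Real.log ‖x‖ = Real.log ‖x‖ + Real.log ‖x‖ by ring, Real.exp_add,
      Real.exp_log hr]
    ring
  have h3 : cc N = ((N : ℝ) - 2) / 2 := rfl
  rw [h1, h2]
  unfold cyl
  have h4 : ‖x‖ ^ 2 ≠ 0 := by positivity
  field_simp
  rw [h3]
  ring

theorem cyl_axial' {e : E N} {ρ : ℝ} {y q : ℝ → ℝ} (hy : Measurable y) (hq : Measurable q) :
    Axial e ((ann N ρ).indicator (cyl N e y q)) := by
  refine ⟨({p : ℝ × ℝ | ρ < p.1 ∧ p.1 < 1}).indicator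
    (fun p => p.1 ^ (-cc N) * y (-Real.log p.1) * q (p.2 / p.1)), ?_, ?_⟩
  · refine Measurable.indicator ?_ ?_
    · exact ((measurable_fst.pow_const _).mul
        (hy.comp (Real.measurable_log.comp measurable_fst).neg)).mul
        (hq.comp (measurable_snd.div measurable_fst))
    · exact (measurableSet_lt measurable_const measurable_fst).inter
        (measurableSet_lt measurable_fst measurable_const)
  · refine ae_of_all _ fun x => ?_
    by_cases hx : x ∈ ann N ρ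
    · rw [indicator_of_mem hx, indicator_of_mem (show ((‖x‖, ⟪x, e⟫) : ℝ × ℝ) ∈ {p : ℝ × ℝ | ρ < p.1 ∧ p.1 < 1} from hx)]
      rfl
    · rw [indicator_of_notMem hx, indicator_of_notMem]
      exact hx

theorem XS_le {e : E N} {ρ : ℝ} : XS e ρ ≤ DD (ann N ρ) := by
  refine Submodule.topologicalClosure_minimal _ (Submodule.span_le.2 fun w hw => hw.1)
    (DD_isClosed _)

theorem XX_sub {e : E N} {ρ : ℝ} {w : LV N} (hw : w ∈ XX e ρ) : w ∈ XS e ρ :=
  Submodule.le_topologicalClosure _ (Submodule.subset_span hw)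

end C4a

open C4a

theorem eig_spec (hN : 3 ≤ N) {e : E N} (he : ‖e‖ = 1) {j : ℕ} {lam L : ℝ} (hL : 0 < L)
    (hz : yf (j + cc N) lam L = 0) :
    eig e j lam L ∈ XS e (Real.exp (-L)) ∧
    fn (eig e j lam L) =ᵐ[volume]
      (ann N (Real.exp (-L))).indicator (cyl N e (yf (j + cc N) lam) (Pz N j)) ∧
    Weak (ann N (Real.exp (-L))) (eig e j lam L)
      (fun x => lam * cyl N e (yf (j + cc N) lam) (Pz N j) x) := by
  have hρ : 0 < Real.exp (-L) := Real.exp_pos _
  have hρ1 : Real.exp (-L) < 1 := by rw [Real.exp_lt_one_iff]; linarith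
  set G := cyl N e (yf (j + cc N) lam) (Pz N j) with hG
  obtain ⟨w, hw, hfw, -⟩ := weak_C2 hN hρ hρ1 (G := G)
    (fun x hx => cyl_contDiffAt ((yf_contDiff _ _).of_le two_le_inf)
      ((Pz_contDiff N j).of_le two_le_inf) hx)
    (fun x hx => by
      simp only [hG, cyl, hx, Real.log_one, neg_zero]
      rw [(yf_spec (j + cc N) lam).1]
      ring)
    (fun x hx => by
      simp only [hG, cyl, hx, Real.log_exp, neg_neg]
      rw [hz]
      ring)
  have hwX : w ∈ XS e (Real.exp (-L)) := by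
    refine XX_sub ⟨hw.1, ?_⟩
    obtain ⟨k, hk, hk2⟩ := cyl_axial' (e := e) (ρ := Real.exp (-L))
      (yf_contDiff (j + cc N) lam).continuous.measurable (Pz_contDiff N j).continuous.measurable
    refine ⟨k, hk, ?_⟩
    filter_upwards [hk2, hfw] with x h1 h2
    rw [h2, h1]
  have hex : ∃ w ∈ XS e (Real.exp (-L)), fn w =ᵐ[volume]
      (ann N (Real.exp (-L))).indicator (cyl N e (yf (j + cc N) lam) (Pz N j)) := ⟨w, hwX, hfw⟩
  have he1 : eig e j lam L = hex.choose := by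
    unfold eig
    rw [dif_pos hex]
  have hs := hex.choose_spec
  rw [← he1] at hs
  refine ⟨hs.1, hs.2, ?_⟩
  have heq : eig e j lam L = w := by
    have hu : eig e j lam L ∈ DD (univ : Set (E N)) := DD_le_univ58 _ (XS_le hs.1)
    have hu' : w ∈ DD (univ : Set (E N)) := DD_le_univ58 _ hw.1
    have h0 : eig e j lam L - w = 0 := by
      refine fn_inj hN (Submodule.sub_mem _ hu hu') ?_
      filter_upwards [fn_sub hN hu hu', hs.2, hfw] with x h1 h2 h3
      rw [h1, h2, h3, sub_self]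
    exact sub_eq_zero.1 h0
  rw [heq]
  refine ⟨hw.1, fun φ W hφ hW => ?_⟩
  rw [hw.2 φ W hφ hW]
  refine integral_congr_ae ?_
  have h0 : ∀ᵐ x : E N, x ≠ 0 := by
    have : Nonempty (Fin N) := ⟨⟨0, by omega⟩⟩
    have : Nontrivial (E N) := inferInstance
    rw [ae_iff]
    simp
  filter_upwards [h0] with x hx
  rw [lap_eig hN he j lam hx, neg_neg]

namespace C4a

theorem exp_mem {ρ : ℝ} (hρ : 0 < ρ) (hρ1 : ρ < 1) :
    0 < -Real.log ρ ∧ Real.exp (-(-Real.log ρ)) = ρ := by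
  refine ⟨by have := Real.log_neg hρ hρ1; linarith, by rw [neg_neg, Real.exp_log hρ]⟩

/-- a bounded measurable function on the annulus belongs to all `L^q` -/
theorem Mq_of_bdd {q : ℝ} {ρ : ℝ} {g : E N → ℝ} {C : ℝ}
    (hm : AEStronglyMeasurable g (volume.restrict (ann N ρ)))
    (hC : ∀ x ∈ ann N ρ, |g x| ≤ C) : Mq q (ann N ρ) g := by
  have : IsFiniteMeasure (volume.restrict (ann N ρ)) :=
    ⟨by
      rw [Measure.restrict_apply_univ]
      exact vol_lt_top58 (ann_subset (N := N) ρ)⟩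
  refine MemLp.of_bound hm C ?_
  filter_upwards [ae_restrict_mem (isOpen_ann ρ).measurableSet] with x hx
  exact hC x hx

/-- crude bound for `cyl` on the annulus -/
theorem cyl_bdd (hN : 3 ≤ N) {e : E N} (he : ‖e‖ = 1) {ρ : ℝ} (hρ : 0 < ρ) {j : ℕ}
    {y : ℝ → ℝ} (hy : Continuous y) : ∃ C : ℝ, ∀ x ∈ ann N ρ, |cyl N e y (Pz N j) x| ≤ C := by
  obtain ⟨B, hB⟩ := isCompact_Icc.exists_bound_of_continuousOn (s := Icc ρ 1)
    (f := fun r => r ^ (-cc N) * y (-Real.log r)) (by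
      refine ContinuousOn.mul ?_ ?_
      · exact ContinuousOn.rpow_const (f := fun r : ℝ => r) continuousOn_id fun x hx =>
          Or.inl (by
            have := hx.1
            linarith)
      · refine hy.comp_continuousOn (ContinuousOn.neg
          (ContinuousOn.log (f := fun r : ℝ => r) continuousOn_id ?_))
        intro x hx
        have := hx.1
        linarith)
  refine ⟨B, fun x hx => ?_⟩
  have h1 := hB ‖x‖ ⟨hx.1.le, hx.2.le⟩
  have h2 := Pz_abs_le N j hN (abs_s_le he x)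
  unfold cyl
  rw [abs_mul]
  calc |‖x‖ ^ (-cc N) * y (-Real.log ‖x‖)| * |Pz N j (⟪x, e⟫ / ‖x‖)|
      ≤ |‖x‖ ^ (-cc N) * y (-Real.log ‖x‖)| * 1 :=
        mul_le_mul_of_nonneg_left h2 (abs_nonneg _)
    _ ≤ B := by rw [mul_one]; exact h1

end C4a

/-- `⟨Φ, w⟩ = λ ∫ φ w` -/
theorem eig_inner (hN : 3 ≤ N) {e : E N} (he : ‖e‖ = 1) {j : ℕ} {lam L : ℝ} (hL : 0 < L)
    (hz : yf (j + cc N) lam L = 0) {w : LV N} (hw : w ∈ DD (ann N (Real.exp (-L)))) :
    ⟪eig e j lam L, w⟫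
      = lam * ∫ x in ann N (Real.exp (-L)), cyl N e (yf (j + cc N) lam) (Pz N j) x * fn w x := by
  obtain ⟨-, -, hW⟩ := eig_spec hN he hL hz
  have hρ : 0 < Real.exp (-L) := Real.exp_pos _
  obtain ⟨C, hC⟩ := cyl_bdd hN he hρ (j := j) (yf_contDiff (j + cc N) lam).continuous
  have hm : Measurable (cyl N e (yf (j + cc N) lam) (Pz N j)) :=
    cyl_meas (yf_contDiff (j + cc N) lam).continuous.measurable
      (Pz_contDiff N j).continuous.measurable
  have hg : Mq (td N) (ann N (Real.exp (-L)))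
      (fun x => lam * cyl N e (yf (j + cc N) lam) (Pz N j) x) := by
    refine Mq_of_bdd (C := |lam| * C) (hm.const_mul lam).aestronglyMeasurable fun x hx => ?_
    rw [abs_mul]
    exact mul_le_mul_of_nonneg_left (hC x hx) (abs_nonneg _)
  rw [(weak_pair hN (isOpen_ann _).measurableSet hg hW hw).2, ← integral_const_mul]
  refine integral_congr_ae (ae_of_all _ fun x => ?_)
  simp only
  ring

namespace C4a

/-- integrals over the annulus of functions of `|x|` and the latitude -/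
theorem int_ann {κ : ℝ} (hκ : ∀ (e : E N), ‖e‖ = 1 →
    ∀ (a b : ℝ), 0 < a → a < b → ∀ k : ℝ → ℝ → ℝ, ContinuousOn (fun z : ℝ × ℝ => k z.1 z.2)
        (Icc a b ×ˢ Icc (-1) 1) →
      ∫ x in {x : E N | a < ‖x‖ ∧ ‖x‖ < b}, k ‖x‖ (⟪x, e⟫ / ‖x‖)
        = κ * ∫ r in a..b, r ^ (N - 1) * av N (k r)) (hN : 3 ≤ N)
    {e : E N} (he : ‖e‖ = 1) {ρ : ℝ} (hρ : 0 < ρ) (hρ1 : ρ < 1) {i j : ℕ} {y z : ℝ → ℝ}
    (hy : Continuous y) (hz : Continuous z) :
    ∫ x in ann N ρ, cyl N e y (Pz N i) x * cyl N e z (Pz N j) x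
      = κ * ∫ r in ρ..1, r ^ (N - 1) * ((r ^ (-cc N) * y (-Real.log r)) *
        (r ^ (-cc N) * z (-Real.log r)) * av N (fun s => Pz N i s * Pz N j s)) := by
  have h1 := hκ e he ρ 1 hρ hρ1 (fun r s => (r ^ (-cc N) * y (-Real.log r)) *
    (r ^ (-cc N) * z (-Real.log r)) * (Pz N i s * Pz N j s)) (by
      have hr : ContinuousOn (fun z : ℝ × ℝ => z.1 ^ (-cc N)) (Icc ρ 1 ×ˢ Icc (-1) 1) :=
        ContinuousOn.rpow_const continuousOn_fst fun x hx => Or.inl (by
          have := hx.1.1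
          linarith)
      have hl : ContinuousOn (fun z : ℝ × ℝ => -Real.log z.1) (Icc ρ 1 ×ˢ Icc (-1) 1) :=
        ContinuousOn.neg (ContinuousOn.log continuousOn_fst fun x hx => by
          have := hx.1.1
          linarith)
      exact ((hr.mul (hy.comp_continuousOn hl)).mul (hr.mul (hz.comp_continuousOn hl))).mul
        (((Pz_contDiff N i).continuous.comp_continuousOn continuousOn_snd).mul
          ((Pz_contDiff N j).continuous.comp_continuousOn continuousOn_snd)))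
  have h2 : ∀ r : ℝ, av N (fun s => (r ^ (-cc N) * y (-Real.log r)) *
      (r ^ (-cc N) * z (-Real.log r)) * (Pz N i s * Pz N j s))
      = (r ^ (-cc N) * y (-Real.log r)) * (r ^ (-cc N) * z (-Real.log r)) *
        av N (fun s => Pz N i s * Pz N j s) := fun r => av_mul_left hN _ _
  simp only [h2] at h1
  rw [← h1]
  show ∫ x in {x : E N | ρ < ‖x‖ ∧ ‖x‖ < 1}, _ = _
  refine integral_congr_ae (ae_of_all _ fun x => ?_)
  simp only [cyl]
  ring

end C4a

/-- orthogonality of different modes with smooth radial parts -/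
theorem cyl_orth (hN : 3 ≤ N) {e : E N} (he : ‖e‖ = 1) {ρ : ℝ} (hρ : 0 < ρ) (hρ1 : ρ < 1)
    {i j : ℕ} (hij : i ≠ j) {y z : ℝ → ℝ} (hy : Continuous y) (hz : Continuous z) :
    ∫ x in ann N ρ, cyl N e y (Pz N i) x * cyl N e z (Pz N j) x = 0 := by
  obtain ⟨κ, -, hκ⟩ := exists_axis N hN
  rw [int_ann hκ hN he hρ hρ1 hy hz, av_Pz_orth hN hij]
  simp

namespace C4a

theorem y_le (ν lam₀ R : ℝ) : ∃ M : ℝ, 0 < M ∧ ∀ lam : ℝ, |lam - lam₀| ≤ 1 → ∀ t ∈ Icc 0 R,
    |yf ν lam t| ≤ M * t := by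
  obtain ⟨B, hB⟩ := (isCompact_Icc.prod isCompact_Icc).exists_bound_of_continuousOn
    (s := Icc (lam₀ - 1) (lam₀ + 1) ×ˢ Icc 0 R) (f := fun z : ℝ × ℝ => deriv (yf ν z.1) z.2)
    (yf_continuous ν).2.continuousOn
  refine ⟨|B| + 1, by positivity, fun lam hl t ht => ?_⟩
  have hmem : lam ∈ Icc (lam₀ - 1) (lam₀ + 1) := by
    rw [abs_le] at hl
    constructor <;> linarith [hl.1, hl.2]
  have h := Convex.norm_image_sub_le_of_norm_deriv_le (f := yf ν lam) (C := |B| + 1)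
    (s := Icc 0 R) (x := 0) (y := t) (fun x _ => (yf_spec ν lam).2.2.1 x) (fun x hx => by
      have h1 := hB (lam, x) ⟨hmem, hx⟩
      have h2 := le_abs_self B
      simp only at h1
      linarith) (convex_Icc _ _) ⟨le_rfl, ht.1.trans ht.2⟩ ht
  rw [(yf_spec ν lam).1, sub_zero, sub_zero] at h
  rw [Real.norm_eq_abs, Real.norm_eq_abs, abs_of_nonneg ht.1] at h
  exact h

theorem y_ge (ν lam₀ : ℝ) : ∃ δ : ℝ, 0 < δ ∧ ∀ lam : ℝ, |lam - lam₀| < δ → ∀ t ∈ Icc 0 δ,
    t / 2 ≤ yf ν lam t := by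
  have hc := ((yf_continuous ν).2.tendsto (lam₀, 0))
  simp only [(yf_spec ν lam₀).2.1] at hc
  obtain ⟨ε, hε, h⟩ := Metric.tendsto_nhds_nhds.1 hc (1 / 2) (by norm_num)
  refine ⟨ε / 2, by positivity, fun lam hl t ht => ?_⟩
  have h1 := Convex.mul_sub_le_image_sub_of_le_deriv (convex_Icc 0 (ε / 2)) (f := yf ν lam)
    (yf_spec ν lam).2.2.1.continuous.continuousOn
    (yf_spec ν lam).2.2.1.differentiableOn (C := 1 / 2) (fun x hx => by
      rw [interior_Icc] at hx
      have hd : dist ((lam, x) : ℝ × ℝ) (lam₀, 0) < ε := by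
        rw [Prod.dist_eq]
        refine max_lt ?_ ?_
        · rw [Real.dist_eq]
          simp only
          linarith
        · rw [Real.dist_eq]
          simp only
          rw [sub_zero, abs_of_pos hx.1]
          linarith [hx.2]
      have h2 := h hd
      rw [Real.dist_eq] at h2
      simp only at h2
      have h3 := (abs_lt.1 h2).1
      linarith) 0 ⟨le_rfl, by positivity⟩ t ht ht.1
  rw [(yf_spec ν lam).1] at h1
  linarith

theorem P_lip (N j : ℕ) : ∃ B : ℝ, 0 < B ∧ ∀ s ∈ Icc (-1 : ℝ) 1, ∀ s' ∈ Icc (-1 : ℝ) 1,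
    |Pz N j s' - Pz N j s| ≤ B * |s' - s| ∧
    |Pz N j s' - Pz N j s - deriv (Pz N j) s * (s' - s)| ≤ B * |s' - s| ^ 2 ∧
    |deriv (Pz N j) s| ≤ B := by
  have hP := Pz_contDiff N j
  have h1 : ContDiff ℝ 1 (deriv (Pz N j)) := by
    have h2 : ContDiff ℝ (1 + 1) (Pz N j) := hP.of_le (by
      have := two_le_inf
      norm_num at this ⊢
      exact this)
    exact (contDiff_succ_iff_deriv.1 h2).2.2
  have hd : Differentiable ℝ (Pz N j) := hP.differentiable (by simp)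
  have hd2 : Differentiable ℝ (deriv (Pz N j)) := h1.differentiable (by simp)
  obtain ⟨B1, hB1⟩ := isCompact_Icc.exists_bound_of_continuousOn (s := Icc (-1 : ℝ) 1)
    h1.continuous.continuousOn
  obtain ⟨B2, hB2⟩ := isCompact_Icc.exists_bound_of_continuousOn (s := Icc (-1 : ℝ) 1)
    (h1.continuous_deriv (by simp)).continuousOn
  have hb1 : ∀ s ∈ Icc (-1 : ℝ) 1, ‖deriv (Pz N j) s‖ ≤ |B1| + |B2| + 1 := fun s hs =>
    (hB1 s hs).trans (by
      have := le_abs_self B1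
      have := abs_nonneg B2
      linarith)
  have hb2 : ∀ s ∈ Icc (-1 : ℝ) 1, ‖deriv (deriv (Pz N j)) s‖ ≤ |B1| + |B2| + 1 := fun s hs =>
    (hB2 s hs).trans (by
      have := le_abs_self B2
      have := abs_nonneg B1
      linarith)
  set B := |B1| + |B2| + 1 with hBdef
  have hB : 0 < B := by positivity
  refine ⟨B, hB, fun s hs s' hs' => ⟨?_, ?_, hb1 s hs⟩⟩
  · have h := Convex.norm_image_sub_le_of_norm_deriv_le (f := Pz N j) (C := B)
      (fun x _ => hd x) hb1 (convex_Icc _ _) hs hs'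
    exact h
  · have hsub : uIcc s s' ⊆ Icc (-1 : ℝ) 1 := by
      rw [← uIcc_of_le (show (-1 : ℝ) ≤ 1 by norm_num)] at hs hs' ⊢
      exact uIcc_subset_uIcc hs hs'
    have h := Convex.norm_image_sub_le_of_norm_deriv_le
      (f := fun u => Pz N j u - deriv (Pz N j) s * u) (C := B * |s' - s|) (s := uIcc s s')
      (x := s) (y := s') (fun x _ => (hd x).sub ((differentiableAt_id).const_mul _))
      (fun u hu => by
        have hder : deriv (fun u => Pz N j u - deriv (Pz N j) s * u) u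
            = deriv (Pz N j) u - deriv (Pz N j) s := by
          have h1 : HasDerivAt (fun u => Pz N j u - deriv (Pz N j) s * u)
              (deriv (Pz N j) u - deriv (Pz N j) s * 1) u :=
            (hd u).hasDerivAt.sub ((hasDerivAt_id u).const_mul _)
          rw [h1.deriv, mul_one]
        rw [hder]
        have h2 := Convex.norm_image_sub_le_of_norm_deriv_le (f := deriv (Pz N j)) (C := B)
          (fun x _ => hd2 x) hb2 (convex_Icc _ _) hs (hsub hu)
        refine h2.trans (mul_le_mul_of_nonneg_left ?_ hB.le)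
        rw [Real.norm_eq_abs]
        exact abs_sub_left_of_mem_uIcc hu)
      (convex_uIcc _ _) left_mem_uIcc right_mem_uIcc
    rw [Real.norm_eq_abs, Real.norm_eq_abs] at h
    calc |Pz N j s' - Pz N j s - deriv (Pz N j) s * (s' - s)|
        = |Pz N j s' - deriv (Pz N j) s * s' - (Pz N j s - deriv (Pz N j) s * s)| := by
          congr 1
          ring
      _ ≤ B * |s' - s| * |s' - s| := h
      _ = B * |s' - s| ^ 2 := by ring

/-- the bound of the radial part -/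
theorem rad_le (N j : ℕ) (hN : 3 ≤ N) (lam₀ R : ℝ) : ∃ A : ℝ, 0 < A ∧ ∀ lam : ℝ,
    |lam - lam₀| ≤ 1 → ∀ r : ℝ, Real.exp (-R) ≤ r → r ≤ 1 →
    |r ^ (-cc N) * yf (j + cc N) lam (-Real.log r)| ≤ A * (1 - r) := by
  obtain ⟨M, hM, h⟩ := y_le (j + cc N) lam₀ R
  have hc : 0 ≤ cc N := by
    unfold cc
    have : (3 : ℝ) ≤ N := by exact_mod_cast hN
    linarith
  refine ⟨Real.exp (R * cc N) * (M * Real.exp R), by positivity, fun lam hl r h1 h2 => ?_⟩
  have hr : 0 < r := (Real.exp_pos _).trans_le h1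
  have hlog : -R ≤ Real.log r := by
    have := Real.log_le_log (Real.exp_pos _) h1
    rwa [Real.log_exp] at this
  have hlog2 : Real.log r ≤ 0 := Real.log_nonpos hr.le h2
  have h3 := h lam hl (-Real.log r) ⟨by linarith, by linarith⟩
  have h4 : -Real.log r ≤ Real.exp R * (1 - r) := by
    have h5 := Real.one_sub_inv_le_log_of_pos hr
    have h6 : r⁻¹ ≤ Real.exp R := by
      rw [show Real.exp R = (Real.exp (-R))⁻¹ by rw [Real.exp_neg, inv_inv]]
      exact inv_anti₀ (Real.exp_pos _) h1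
    calc -Real.log r ≤ r⁻¹ - 1 := by linarith
      _ = r⁻¹ * (1 - r) := by field_simp
      _ ≤ Real.exp R * (1 - r) := mul_le_mul_of_nonneg_right h6 (by linarith)
  have h7 : r ^ (-cc N) ≤ Real.exp (R * cc N) := by
    calc r ^ (-cc N) ≤ (Real.exp (-R)) ^ (-cc N) :=
          Real.rpow_le_rpow_of_nonpos (Real.exp_pos _) h1 (by linarith)
      _ = Real.exp (R * cc N) := by
          rw [← Real.exp_mul]
          congr 1
          ring
  rw [abs_mul, abs_of_nonneg (Real.rpow_nonneg hr.le _)]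
  calc r ^ (-cc N) * |yf (j + cc N) lam (-Real.log r)|
      ≤ Real.exp (R * cc N) * (M * (Real.exp R * (1 - r))) := by
        refine mul_le_mul h7 (h3.trans (mul_le_mul_of_nonneg_left h4 hM.le)) (abs_nonneg _)
          (Real.exp_pos _).le
    _ = Real.exp (R * cc N) * (M * Real.exp R) * (1 - r) := by ring

/-- pointwise bounds for one mode -/
theorem mode_pw (hN : 3 ≤ N) {e : E N} (he : ‖e‖ = 1) (j : ℕ) (lam₀ R : ℝ) : ∃ C₀ : ℝ, 0 < C₀ ∧
    ∀ C : ℝ, C₀ ≤ C → ∀ lam : ℝ, |lam - lam₀| ≤ 1 → ∀ ρ : ℝ, Real.exp (-R) ≤ ρ →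
      (∀ x ∈ ann N ρ, |cyl N e (yf (j + cc N) lam) (Pz N j) x| ≤ C * (1 - ‖x‖)) ∧
      Tan ρ C (cyl N e (yf (j + cc N) lam) (Pz N j)) := by
  obtain ⟨A, hA, hrad⟩ := rad_le N j hN lam₀ R
  obtain ⟨B, hB, hP⟩ := P_lip N j
  refine ⟨A + A * B * Real.exp R + A * (3 * B), by positivity, fun C hC lam hl ρ hρR => ?_⟩
  have hc1 : A ≤ C := by
    have : 0 ≤ A * B * Real.exp R + A * (3 * B) := by positivity
    linarith
  have hc2 : A * B * Real.exp R ≤ C := by
    have : 0 ≤ A + A * (3 * B) := by positivity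
    linarith
  have hc3 : A * (3 * B) ≤ C := by
    have : 0 ≤ A + A * B * Real.exp R := by positivity
    linarith
  have hρ : 0 < ρ := (Real.exp_pos _).trans_le hρR
  have hr : ∀ x ∈ ann N ρ, |‖x‖ ^ (-cc N) * yf (j + cc N) lam (-Real.log ‖x‖)|
      ≤ A * (1 - ‖x‖) := fun x hx => hrad lam hl ‖x‖ (hρR.trans hx.1.le) hx.2.le
  have hs : ∀ x : E N, ⟪x, e⟫ / ‖x‖ ∈ Icc (-1 : ℝ) 1 := fun x => by
    have := abs_s_le he x
    rw [abs_le] at this
    exact this
  have h1 : ∀ x ∈ ann N ρ, |cyl N e (yf (j + cc N) lam) (Pz N j) x| ≤ A * (1 - ‖x‖) := by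
    intro x hx
    unfold cyl
    rw [abs_mul]
    calc |‖x‖ ^ (-cc N) * yf (j + cc N) lam (-Real.log ‖x‖)| * |Pz N j (⟪x, e⟫ / ‖x‖)|
        ≤ |‖x‖ ^ (-cc N) * yf (j + cc N) lam (-Real.log ‖x‖)| * 1 :=
          mul_le_mul_of_nonneg_left (Pz_abs_le N j hN (abs_s_le he x)) (abs_nonneg _)
      _ ≤ A * (1 - ‖x‖) := by rw [mul_one]; exact hr x hx
  refine ⟨fun x hx => (h1 x hx).trans (mul_le_mul_of_nonneg_right hc1 (by linarith [hx.2])),
    fun x hx => (h1 x hx).trans ?_, fun x hx y hy hxy => ?_, fun T k hT x hx => ?_⟩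
  · have hx0 : 0 < ‖x‖ := hρ.trans hx.1
    nlinarith
  · have hx0 : 0 < ‖x‖ := hρ.trans hx.1
    have heq : cyl N e (yf (j + cc N) lam) (Pz N j) x - cyl N e (yf (j + cc N) lam) (Pz N j) y
        = (‖x‖ ^ (-cc N) * yf (j + cc N) lam (-Real.log ‖x‖)) *
          (Pz N j (⟪x, e⟫ / ‖x‖) - Pz N j (⟪y, e⟫ / ‖x‖)) := by
      unfold cyl
      rw [← hxy]
      ring
    have h2 : |⟪x, e⟫ / ‖x‖ - ⟪y, e⟫ / ‖x‖| ≤ Real.exp R * ‖x - y‖ := by
      rw [← sub_div, ← inner_sub_left, abs_div, abs_of_pos hx0]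
      have h3 := abs_real_inner_le_norm (x - y) e
      rw [he, mul_one] at h3
      have h6 : ‖x‖⁻¹ ≤ Real.exp R := by
        rw [show Real.exp R = (Real.exp (-R))⁻¹ by rw [Real.exp_neg, inv_inv]]
        exact inv_anti₀ (Real.exp_pos _) (hρR.trans hx.1.le)
      rw [div_eq_inv_mul]
      exact mul_le_mul h6 h3 (abs_nonneg _) (Real.exp_pos _).le
    have hy' : ⟪y, e⟫ / ‖x‖ ∈ Icc (-1 : ℝ) 1 := by
      rw [hxy]
      exact hs y
    have h4 := (hP _ hy' _ (hs x)).1
    rw [heq, abs_mul]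
    calc |‖x‖ ^ (-cc N) * yf (j + cc N) lam (-Real.log ‖x‖)| *
          |Pz N j (⟪x, e⟫ / ‖x‖) - Pz N j (⟪y, e⟫ / ‖x‖)|
        ≤ (A * (1 - ‖x‖)) * (B * (Real.exp R * ‖x - y‖)) :=
          mul_le_mul (hr x hx) (h4.trans (mul_le_mul_of_nonneg_left h2 hB.le)) (abs_nonneg _)
            (mul_nonneg hA.le (by linarith [hx.2]))
      _ ≤ (A * 1) * (B * (Real.exp R * ‖x - y‖)) := by
          refine mul_le_mul_of_nonneg_right (mul_le_mul_of_nonneg_left (by linarith) hA.le) ?_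
          positivity
      _ = A * B * Real.exp R * ‖x - y‖ := by ring
      _ ≤ C * ‖x - y‖ := mul_le_mul_of_nonneg_right hc2 (norm_nonneg _)
  · have hx0 : 0 < ‖x‖ := hρ.trans hx.1
    have hn1 : ‖T x‖ = ‖x‖ := T.norm_map x
    have hn2 : ‖T.symm x‖ = ‖x‖ := T.symm.norm_map x
    have heq : cyl N e (yf (j + cc N) lam) (Pz N j) (T x)
        + cyl N e (yf (j + cc N) lam) (Pz N j) (T.symm x)
        - 2 * cyl N e (yf (j + cc N) lam) (Pz N j) x
        = (‖x‖ ^ (-cc N) * yf (j + cc N) lam (-Real.log ‖x‖)) *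
          (Pz N j (⟪T x, e⟫ / ‖x‖) + Pz N j (⟪T.symm x, e⟫ / ‖x‖)
            - 2 * Pz N j (⟪x, e⟫ / ‖x‖)) := by
      unfold cyl
      rw [hn1, hn2]
      ring
    have hk1 : ‖T x - x‖ ≤ k * ‖x‖ := hT x
    have hk2 : ‖T.symm x - x‖ ≤ k * ‖x‖ := by
      have h5 : ‖T.symm x - x‖ = ‖T (T.symm x) - T x‖ := by
        rw [← map_sub, T.norm_map]
      rw [h5, T.apply_symm_apply, norm_sub_rev]
      exact hT x
    have hk3 : ‖T x + T.symm x - (2 : ℝ) • x‖ ≤ k ^ 2 * ‖x‖ := by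
      have h5 : ‖T x + T.symm x - (2 : ℝ) • x‖ = ‖T (T x - x) - (T x - x)‖ := by
        rw [← T.norm_map (T x + T.symm x - (2 : ℝ) • x)]
        congr 1
        rw [map_sub, map_add, map_smul, T.apply_symm_apply, map_sub, two_smul]
        abel
      rw [h5]
      refine (hT _).trans ?_
      have hk0 : 0 ≤ k := by
        by_contra hk
        have := norm_nonneg (T x - x)
        nlinarith [not_le.1 hk]
      calc k * ‖T x - x‖ ≤ k * (k * ‖x‖) := mul_le_mul_of_nonneg_left hk1 hk0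
        _ = k ^ 2 * ‖x‖ := by ring
    have hdiv : ∀ (v : E N) (K : ℝ), ‖v‖ ≤ K * ‖x‖ → |⟪v, e⟫ / ‖x‖| ≤ K := fun v K hv => by
      rw [abs_div, abs_of_pos hx0, div_le_iff₀ hx0]
      have h3 := abs_real_inner_le_norm v e
      rw [he, mul_one] at h3
      exact h3.trans hv
    set s := ⟪x, e⟫ / ‖x‖ with hsdef
    set s1 := ⟪T x, e⟫ / ‖x‖ with hs1
    set s2 := ⟪T.symm x, e⟫ / ‖x‖ with hs2
    have ha : |s1 - s| ≤ k := by
      rw [hs1, hsdef, ← sub_div, ← inner_sub_left]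
      exact hdiv _ _ hk1
    have hb : |s2 - s| ≤ k := by
      rw [hs2, hsdef, ← sub_div, ← inner_sub_left]
      exact hdiv _ _ hk2
    have hcc : |s1 + s2 - 2 * s| ≤ k ^ 2 := by
      have h5 : s1 + s2 - 2 * s = ⟪T x + T.symm x - (2 : ℝ) • x, e⟫ / ‖x‖ := by
        rw [inner_sub_left, inner_add_left, real_inner_smul_left, hs1, hs2, hsdef]
        ring
      rw [h5]
      exact hdiv _ _ hk3
    have hm : s ∈ Icc (-1 : ℝ) 1 := hs x
    have hm1 : s1 ∈ Icc (-1 : ℝ) 1 := by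
      have := hs (T x)
      rwa [hn1] at this
    have hm2 : s2 ∈ Icc (-1 : ℝ) 1 := by
      have := hs (T.symm x)
      rwa [hn2] at this
    obtain ⟨-, t1, t3⟩ := hP s hm s1 hm1
    obtain ⟨-, t2, -⟩ := hP s hm s2 hm2
    have q1 : |s1 - s| ^ 2 ≤ k ^ 2 := pow_le_pow_left₀ (abs_nonneg _) ha 2
    have q2 : |s2 - s| ^ 2 ≤ k ^ 2 := pow_le_pow_left₀ (abs_nonneg _) hb 2
    have hfin : |Pz N j s1 + Pz N j s2 - 2 * Pz N j s| ≤ 3 * B * k ^ 2 := by
      have h5 : Pz N j s1 + Pz N j s2 - 2 * Pz N j s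
          = (Pz N j s1 - Pz N j s - deriv (Pz N j) s * (s1 - s))
            + (Pz N j s2 - Pz N j s - deriv (Pz N j) s * (s2 - s))
            + deriv (Pz N j) s * (s1 + s2 - 2 * s) := by ring
      rw [h5]
      refine (abs_add_three _ _ _).trans ?_
      rw [abs_mul]
      have e1 : B * |s1 - s| ^ 2 ≤ B * k ^ 2 := mul_le_mul_of_nonneg_left q1 hB.le
      have e2 : B * |s2 - s| ^ 2 ≤ B * k ^ 2 := mul_le_mul_of_nonneg_left q2 hB.le
      have e3 : |deriv (Pz N j) s| * |s1 + s2 - 2 * s| ≤ B * k ^ 2 :=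
        mul_le_mul t3 hcc (abs_nonneg _) hB.le
      linarith
    rw [heq, abs_mul]
    calc |‖x‖ ^ (-cc N) * yf (j + cc N) lam (-Real.log ‖x‖)| *
          |Pz N j s1 + Pz N j s2 - 2 * Pz N j s|
        ≤ (A * (1 - ‖x‖)) * (3 * B * k ^ 2) :=
          mul_le_mul (hr x hx) hfin (abs_nonneg _) (mul_nonneg hA.le (by linarith [hx.2]))
      _ ≤ (A * 1) * (3 * B * k ^ 2) := by
          refine mul_le_mul_of_nonneg_right (mul_le_mul_of_nonneg_left (by linarith) hA.le) ?_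
          positivity
      _ = A * (3 * B) * k ^ 2 := by ring
      _ ≤ C * k ^ 2 := mul_le_mul_of_nonneg_right hc3 (by positivity)

theorem low_pt {N : ℕ} {Y r : ℝ} (h4 : -Real.log r / 2 ≤ Y) (hN : 3 ≤ N) (h0 : 0 < r)
    (hr : r ≤ 1) (ht0 : 0 ≤ -Real.log r) :
    (Real.log r / 2) ^ 2 ≤ (r ^ (-cc N) * Y) * (r ^ (-cc N) * Y) := by
  have h5 : 1 ≤ r ^ (-cc N) := by
    refine Real.one_le_rpow_of_pos_of_le_one_of_nonpos h0 hr ?_
    unfold cc
    have : (3 : ℝ) ≤ N := by exact_mod_cast hN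
    linarith
  have h7 : 0 ≤ Y := by linarith
  have h6 : -Real.log r / 2 ≤ r ^ (-cc N) * Y :=
    h4.trans (le_mul_of_one_le_left h7 h5)
  have h9 : 0 ≤ -Real.log r / 2 := by linarith
  have h10 := mul_self_le_mul_self h9 h6
  calc (Real.log r / 2) ^ 2 = -Real.log r / 2 * (-Real.log r / 2) := by ring
    _ ≤ _ := h10

theorem fin_num {n U m C : ℝ} (hn : 0 ≤ n) (hU : 0 ≤ U) (hm : 0 < m) (hC : 1 + U + m⁻¹ ≤ C)
    (h1 : n ^ 2 ≤ U) (h2 : m ≤ n ^ 2) : n ≤ C ∧ C⁻¹ ≤ n := by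
  have hm' : 0 < m⁻¹ := inv_pos.2 hm
  constructor
  · by_contra h
    have h := not_le.1 h
    nlinarith
  · have hC1 : 1 ≤ C := by linarith
    have hC2 : m⁻¹ ≤ C := by linarith
    have hCpos : 0 < C := by linarith
    rcases le_or_gt 1 n with h | h
    · exact (inv_le_one_of_one_le₀ hC1).trans h
    · have h3 : C⁻¹ ≤ m := by
        rw [inv_le_comm₀ hCpos hm]
        exact hC2
      nlinarith

/-- norms of the eigenfunctions of one mode -/
theorem mode_norm (hN : 3 ≤ N) {e : E N} (he : ‖e‖ = 1) (j : ℕ) {lam₀ L₀ : ℝ} (hlam : 0 < lam₀)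
    (hL₀ : 0 < L₀) : ∃ C₀ δ : ℝ, 0 < C₀ ∧ 0 < δ ∧
    ∀ C : ℝ, C₀ ≤ C → ∀ lam L : ℝ, |lam - lam₀| < δ → |L - L₀| < δ → 0 < L →
      yf (j + cc N) lam L = 0 → ‖eig e j lam L‖ ≤ C ∧ C⁻¹ ≤ ‖eig e j lam L‖ := by
  obtain ⟨C₁, hC₁, hpw⟩ := mode_pw hN he j lam₀ (L₀ + 1)
  obtain ⟨δ₁, hδ₁, hge⟩ := y_ge (j + cc N) lam₀
  obtain ⟨κ, hκ, haxis⟩ := exists_axis N hN
  set δ₂ := min δ₁ (L₀ / 2) with hδ₂
  have hδ₂pos : 0 < δ₂ := lt_min hδ₁ (by positivity)
  set a := Real.exp (-δ₂) with ha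
  have ha0 : 0 < a := Real.exp_pos _
  have ha1 : a < 1 := by rw [ha, Real.exp_lt_one_iff]; linarith
  set I := ∫ r in a..1, r ^ (N - 1) * (Real.log r / 2) ^ 2 with hI
  have hlogc : ContinuousOn Real.log (Icc a 1) := ContinuousOn.log (f := fun r : ℝ => r)
    continuousOn_id fun x hx => by
      have := hx.1
      linarith
  have hIc : ContinuousOn (fun r => r ^ (N - 1) * (Real.log r / 2) ^ 2) (Icc a 1) :=
    (continuousOn_id.pow _).mul ((hlogc.div_const 2).pow 2)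
  have hIpos : 0 < I := by
    refine intervalIntegral.intervalIntegral_pos_of_pos_on ?_ (fun r hr => ?_) ha1
    · exact (hIc.mono (by rw [uIcc_of_le ha1.le])).intervalIntegrable
    · have h0 : 0 < r := ha0.trans hr.1
      have h1 : Real.log r < 0 := Real.log_neg h0 hr.2
      have h3 : Real.log r / 2 ≠ 0 := by linarith
      have h2 : 0 < (Real.log r / 2) ^ 2 := by positivity
      positivity
  set P2 := av N (fun s => Pz N j s ^ 2) with hP2
  have hP2pos : 0 < P2 := av_Pz_sq_pos hN j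
  set V := (volume (ball (0 : E N) 1)).toReal with hV
  set m := lam₀ / 2 * (κ * (I * P2)) with hm
  have hmpos : 0 < m := by positivity
  set U := (2 * lam₀) * (C₁ ^ 2 * V) with hU
  have hV0 : 0 ≤ V := ENNReal.toReal_nonneg
  have hU0 : 0 ≤ U := by positivity
  refine ⟨1 + U + m⁻¹, min (min 1 (lam₀ / 2)) (min δ₁ (L₀ / 2)), by positivity, ?_, ?_⟩
  · refine lt_min (lt_min one_pos (by positivity)) (lt_min hδ₁ (by positivity))
  intro C hC lam L hlamd hLd hL hz
  have d1 : |lam - lam₀| < 1 := hlamd.trans_le ((min_le_left _ _).trans (min_le_left _ _))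
  have d2 : |lam - lam₀| < lam₀ / 2 :=
    hlamd.trans_le ((min_le_left _ _).trans (min_le_right _ _))
  have d3 : |lam - lam₀| < δ₁ := hlamd.trans_le ((min_le_right _ _).trans (min_le_left _ _))
  have d4 : |L - L₀| < L₀ / 2 := hLd.trans_le ((min_le_right _ _).trans (min_le_right _ _))
  have d5 : |L - L₀| < 1 := hLd.trans_le ((min_le_left _ _).trans (min_le_left _ _))
  have l1 : lam₀ / 2 < lam := by linarith [(abs_lt.1 d2).1]
  have l2 : lam < 2 * lam₀ := by linarith [(abs_lt.1 d2).2]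
  have L1 : L₀ / 2 < L := by linarith [(abs_lt.1 d4).1]
  have L2 : L < L₀ + 1 := by linarith [(abs_lt.1 d5).2]
  set ρ := Real.exp (-L) with hρdef
  have hρ : 0 < ρ := Real.exp_pos _
  have hρ1 : ρ < 1 := by rw [hρdef, Real.exp_lt_one_iff]; linarith
  obtain ⟨hX, hfn, -⟩ := eig_spec hN he hL hz
  set F := eig e j lam L with hF
  set f := cyl N e (yf (j + cc N) lam) (Pz N j) with hf
  have hnorm : ‖F‖ ^ 2 = lam * ∫ x in ann N ρ, f x * f x := by
    rw [← real_inner_self_eq_norm_sq, eig_inner hN he hL hz (XS_le hX)]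
    congr 1
    refine setIntegral_congr_ae (isOpen_ann ρ).measurableSet ?_
    filter_upwards [hfn] with x hx hxm
    rw [hx, indicator_of_mem hxm]
  have hup : ∫ x in ann N ρ, f x * f x ≤ C₁ ^ 2 * V := by
    have hb : ∀ x ∈ ann N ρ, f x * f x ≤ C₁ ^ 2 := fun x hx => by
      have h1 := (hpw C₁ le_rfl lam d1.le ρ (by
        rw [hρdef]
        exact Real.exp_le_exp.2 (by linarith))).2.1 x hx
      have h2 := abs_le.1 h1
      nlinarith [h2.1, h2.2]
    have hvol : (volume (ann N ρ)).toReal ≤ V :=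
      ENNReal.toReal_mono (measure_ball_lt_top).ne (measure_mono (ann_subset ρ))
    calc ∫ x in ann N ρ, f x * f x ≤ ‖∫ x in ann N ρ, f x * f x‖ := le_abs_self _
      _ ≤ C₁ ^ 2 * (volume (ann N ρ)).toReal := by
          refine norm_setIntegral_le_of_norm_le_const
            ((measure_mono (ann_subset ρ)).trans_lt measure_ball_lt_top) fun x hx => ?_
          rw [Real.norm_eq_abs, abs_of_nonneg (mul_self_nonneg _)]
          exact hb x hx
      _ ≤ C₁ ^ 2 * V := mul_le_mul_of_nonneg_left hvol (by positivity)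
  have hlow : κ * (I * P2) ≤ ∫ x in ann N ρ, f x * f x := by
    rw [hf, int_ann haxis hN he hρ hρ1 (yf_contDiff (j + cc N) lam).continuous
      (yf_contDiff (j + cc N) lam).continuous]
    have hav : av N (fun s => Pz N j s * Pz N j s) = P2 := by
      rw [hP2]
      congr 1
      ext s
      ring
    rw [hav]
    refine mul_le_mul_of_nonneg_left ?_ hκ.le
    have hρa : ρ ≤ a := by
      rw [hρdef, ha]
      refine Real.exp_le_exp.2 ?_
      have : δ₂ ≤ L₀ / 2 := min_le_right _ _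
      linarith
    have hkey : ∀ r ∈ Icc a 1, (Real.log r / 2) ^ 2 ≤
        (r ^ (-cc N) * yf (j + cc N) lam (-Real.log r)) *
          (r ^ (-cc N) * yf (j + cc N) lam (-Real.log r)) := by
      intro r hr
      have h0 : 0 < r := ha0.trans_le hr.1
      have ht0 : 0 ≤ -Real.log r := by
        have := Real.log_nonpos h0.le hr.2
        linarith
      have ht1 : -Real.log r ≤ δ₁ := by
        have h3 := Real.log_le_log ha0 hr.1
        rw [ha, Real.log_exp] at h3
        have : δ₂ ≤ δ₁ := min_le_left _ _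
        linarith
      exact low_pt (hge lam d3 (-Real.log r) ⟨ht0, ht1⟩) hN h0 hr.2 ht0
    have hg : ContinuousOn (fun r : ℝ => r ^ (N - 1) * ((r ^ (-cc N) *
        yf (j + cc N) lam (-Real.log r)) * (r ^ (-cc N) * yf (j + cc N) lam (-Real.log r)) * P2))
        (Icc ρ 1) := by
      have h1 : ContinuousOn (fun r : ℝ => r ^ (-cc N)) (Icc ρ 1) :=
        ContinuousOn.rpow_const (f := fun r : ℝ => r) continuousOn_id fun x hx => Or.inl (by
          have := hx.1
          linarith)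
      have h2 : ContinuousOn (fun r : ℝ => yf (j + cc N) lam (-Real.log r)) (Icc ρ 1) :=
        (yf_contDiff (j + cc N) lam).continuous.comp_continuousOn (ContinuousOn.neg
          (ContinuousOn.log (f := fun r : ℝ => r) continuousOn_id fun x hx => by
            have := hx.1
            linarith))
      exact (continuousOn_id.pow _).mul (((h1.mul h2).mul (h1.mul h2)).mul continuousOn_const)
    calc I * P2 = ∫ r in a..1, r ^ (N - 1) * (Real.log r / 2) ^ 2 * P2 := by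
          rw [intervalIntegral.integral_mul_const]
      _ ≤ ∫ r in a..1, r ^ (N - 1) * ((r ^ (-cc N) *
        yf (j + cc N) lam (-Real.log r)) * (r ^ (-cc N) * yf (j + cc N) lam (-Real.log r)) * P2)
          := by
          refine intervalIntegral.integral_mono_on ha1.le ?_ ?_ fun r hr => ?_
          · exact ((hIc.mul continuousOn_const).mono
              (by rw [uIcc_of_le ha1.le])).intervalIntegrable
          · exact (hg.mono (by
              rw [uIcc_of_le ha1.le]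
              exact Icc_subset_Icc_left hρa)).intervalIntegrable
          · have h0 : 0 < r := ha0.trans_le hr.1
            rw [mul_assoc]
            exact mul_le_mul_of_nonneg_left (mul_le_mul_of_nonneg_right (hkey r hr) hP2pos.le)
              (pow_nonneg h0.le _)
      _ ≤ _ := by
          refine intervalIntegral.integral_mono_interval hρa ha1.le le_rfl ?_ ?_
          · refine (ae_restrict_iff' measurableSet_Ioc).2 (ae_of_all _ fun r hr => ?_)
            have h0 : 0 < r := hρ.trans hr.1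
            have := mul_self_nonneg (r ^ (-cc N) * yf (j + cc N) lam (-Real.log r))
            exact mul_nonneg (pow_nonneg h0.le _) (mul_nonneg this hP2pos.le)
          · exact (hg.mono (by rw [uIcc_of_le hρ1.le])).intervalIntegrable
  have hle : ‖F‖ ^ 2 ≤ U := by
    rw [hnorm, hU]
    exact mul_le_mul l2.le hup ((by positivity : (0 : ℝ) ≤ κ * (I * P2)).trans hlow)
      (by positivity)
  have hgele : m ≤ ‖F‖ ^ 2 := by
    rw [hnorm, hm]
    exact mul_le_mul l1.le hlow (by positivity) (by linarith)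
  exact fin_num (norm_nonneg F) hU0 hmpos hC hle hgele

end C4a

open C4a in
/-- uniform bounds of the eigenfunctions -/
theorem eig_bdd (hN : 3 ≤ N) (D : Cr N) {e : E N} (he : ‖e‖ = 1) : ∃ C : ℝ, 0 < C ∧
    ∀ᶠ i in atTop, (∀ x ∈ ann N (D.rho i), |D.f1 e i x| ≤ C * (1 - ‖x‖) ∧
      |D.f2 e i x| ≤ C * (1 - ‖x‖)) ∧ Tan (D.rho i) C (D.f1 e i) ∧ Tan (D.rho i) C (D.f2 e i) ∧
      ‖D.F1 e i‖ ≤ C ∧ ‖D.F2 e i‖ ≤ C ∧ C⁻¹ ≤ ‖D.F1 e i‖ ∧ C⁻¹ ≤ ‖D.F2 e i‖ := by
  obtain ⟨A1, hA1, hp1⟩ := mode_pw hN he 0 D.lam (D.L + 1)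
  obtain ⟨A2, hA2, hp2⟩ := mode_pw hN he D.l D.lam (D.L + 1)
  obtain ⟨B1, δ₁, hB1, hδ₁, hn1⟩ := mode_norm hN he 0 D.hlam D.hL
  obtain ⟨B2, δ₂, hB2, hδ₂, hn2⟩ := mode_norm hN he D.l D.hlam D.hL
  have hc0 : ((0 : ℕ) : ℝ) + cc N = cc N := by rw [Nat.cast_zero, zero_add]
  rw [hc0] at hp1
  have hn1' := hn1
  simp only [hc0] at hn1'
  refine ⟨A1 + A2 + B1 + B2, by positivity, ?_⟩
  have e1 : ∀ᶠ i in atTop, |D.Ls i - D.L| < min (min δ₁ δ₂) 1 := by
    have := D.tL.eventually (Metric.ball_mem_nhds D.L (lt_min (lt_min hδ₁ hδ₂) one_pos))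
    filter_upwards [this] with i hi
    rwa [Real.dist_eq] at hi
  have e2 : ∀ᶠ i in atTop, |D.lam1 i - D.lam| < min (min δ₁ δ₂) 1 := by
    have := D.t1.eventually (Metric.ball_mem_nhds D.lam (lt_min (lt_min hδ₁ hδ₂) one_pos))
    filter_upwards [this] with i hi
    rwa [Real.dist_eq] at hi
  have e3 : ∀ᶠ i in atTop, |D.lam2 i - D.lam| < min (min δ₁ δ₂) 1 := by
    have := D.t2.eventually (Metric.ball_mem_nhds D.lam (lt_min (lt_min hδ₁ hδ₂) one_pos))
    filter_upwards [this] with i hi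
    rwa [Real.dist_eq] at hi
  filter_upwards [e1, e2, e3] with i h1 h2 h3
  have m1 : min (min δ₁ δ₂) 1 ≤ δ₁ := (min_le_left _ _).trans (min_le_left _ _)
  have m2 : min (min δ₁ δ₂) 1 ≤ δ₂ := (min_le_left _ _).trans (min_le_right _ _)
  have m3 : min (min δ₁ δ₂) 1 ≤ 1 := min_le_right _ _
  have hρ : Real.exp (-(D.L + 1)) ≤ D.rho i := by
    unfold Cr.rho
    refine Real.exp_le_exp.2 ?_
    linarith [(abs_lt.1 h1).2]
  obtain ⟨p1, p2⟩ := hp1 (A1 + A2 + B1 + B2) (by linarith) (D.lam1 i) (by linarith) (D.rho i) hρ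
  obtain ⟨p3, p4⟩ := hp2 (A1 + A2 + B1 + B2) (by linarith) (D.lam2 i) (by linarith) (D.rho i) hρ
  obtain ⟨q1, q2⟩ := hn1' (A1 + A2 + B1 + B2) (by linarith) (D.lam1 i) (D.Ls i)
    (by linarith) (by linarith) (D.posL i) (D.z1 i)
  obtain ⟨q3, q4⟩ := hn2 (A1 + A2 + B1 + B2) (by linarith) (D.lam2 i) (D.Ls i)
    (by linarith) (by linarith) (D.posL i) (D.z2 i)
  exact ⟨fun x hx => ⟨p1 x hx, p3 x hx⟩, p2, p4, q1, q3, q2, q4⟩

end Pool.Agent.helper13.BN
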