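import Pool.Agent.helper13.BN.Defs3
import Pool.Agent.helper23.BN.Basic
import Pool.Agent.helper68.BN.BubInt2
import Pool.Agent.helper41.BN.Pw
import Pool.Agent.helper11.BN.Proj

set_option autoImplicit false

/-!
# MP_94a57f_an: integrals with the projected bubble (module D4b, D4c)
-/

open MeasureTheory Filter Topology Set Metric
open scoped ContDiff Gradient RealInnerProductSpace ENNReal

noncomputable section
namespace Pool.Agent.helper13.BN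
variable {N : ℕ}

namespace D4b

/-! ### real powers -/

theorem cc3 : cc 3 = 1 / 2 := by unfold cc; norm_num
theorem cc4 : cc 4 = 1 := by unfold cc; norm_num
theorem cc5 : cc 5 = 3 / 2 := by unfold cc; norm_num
theorem pm3 : pm 3 = 4 := by unfold pm; norm_num
theorem pm4 : pm 4 = 2 := by unfold pm; norm_num
theorem pm5 : pm 5 = 4 / 3 := by unfold pm; norm_num

/-- the exponent of `∫ U^{pm}` -/
def kp (N : ℕ) : ℝ := if N = 3 then 1 else if N = 4 then 7 / 4 else 2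

theorem Er3 (d μ : ℝ) : Er 3 d μ = μ := by unfold Er; simp
theorem Er4 (d μ : ℝ) : Er 4 d μ = μ ^ 2 / d + μ ^ ((5 : ℝ) / 3) := by unfold Er; simp
theorem Er5 (d μ : ℝ) : Er 5 d μ = μ ^ ((13 : ℝ) / 6) + μ ^ 3 / d ^ 3 := by unfold Er; simp

theorem rle {μ a b : ℝ} (hμ : 0 < μ) (hμ1 : μ ≤ 1) (h : b ≤ a) : μ ^ a ≤ μ ^ b :=
  Real.rpow_le_rpow_of_exponent_ge hμ hμ1 h

theorem mu_le_one {d μ : ℝ} (hd : 0 < d) (hd1 : d ≤ 1) (h : μ ≤ d ^ 2) : μ ≤ 1 := by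
  nlinarith

/-- `μ^{1/2} ≤ d` -/
theorem sqrt_le {d μ : ℝ} (hd : 0 < d) (hμ : 0 < μ) (h : μ ≤ d ^ 2) : μ ^ ((1 : ℝ) / 2) ≤ d := by
  rw [← Real.sqrt_eq_rpow]
  exact Real.sqrt_le_iff.2 ⟨hd.le, h⟩

theorem dpow3 {d : ℝ} : d ^ (2 - ((3 : ℕ) : ℝ)) = d⁻¹ := by
  rw [← Real.rpow_neg_one]
  norm_num

theorem dpow4 {d : ℝ} (hd : 0 < d) : d ^ (2 - ((4 : ℕ) : ℝ)) = (d ^ 2)⁻¹ := by
  rw [← Real.rpow_natCast, ← Real.rpow_neg hd.le]
  norm_num

theorem dpow5 {d : ℝ} (hd : 0 < d) : d ^ (2 - ((5 : ℕ) : ℝ)) = (d ^ 3)⁻¹ := by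
  rw [← Real.rpow_natCast, ← Real.rpow_neg hd.le]
  norm_num

theorem cases345 (hN : 3 ≤ N) (hN5 : N ≤ 5) : N = 3 ∨ N = 4 ∨ N = 5 := by omega

/-- first error -/
theorem err1 (hN : 3 ≤ N) (hN5 : N ≤ 5) {d μ : ℝ} (hd : 0 < d) (hd1 : d ≤ 1) (hμ : 0 < μ)
    (h : μ ≤ d ^ 2) : μ ^ cc N * d ^ (2 - (N : ℝ)) * μ ^ kp N ≤ Er N d μ := by
  have hμ1 := mu_le_one hd hd1 h
  rcases cases345 hN hN5 with rfl | rfl | rfl
  · rw [Er3, dpow3, cc3]
    have h1 : kp 3 = 1 := by simp [kp]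
    rw [h1, Real.rpow_one]
    have h2 := sqrt_le hd hμ h
    have h3 : μ ^ ((1 : ℝ) / 2) * d⁻¹ ≤ 1 := by
      rw [← div_eq_mul_inv, div_le_one hd]
      exact h2
    nlinarith
  · rw [Er4, dpow4 hd, cc4, Real.rpow_one]
    have h1 : kp 4 = 7 / 4 := by simp [kp]
    rw [h1]
    have h2 : μ * (d ^ 2)⁻¹ ≤ 1 := by
      rw [← div_eq_mul_inv, div_le_one (by positivity)]
      exact h
    have h3 : μ ^ ((7 : ℝ) / 4) ≤ μ ^ ((5 : ℝ) / 3) := rle hμ hμ1 (by norm_num)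
    have h4 : 0 < μ ^ ((7 : ℝ) / 4) := by positivity
    have h5 : 0 < μ ^ 2 / d := by positivity
    nlinarith
  · rw [Er5, dpow5 hd, cc5]
    have h1 : kp 5 = 2 := by simp [kp]
    rw [h1]
    have h2 : μ ^ ((3 : ℝ) / 2) * (d ^ 3)⁻¹ * μ ^ (2 : ℝ) = μ ^ ((7 : ℝ) / 2) / d ^ 3 := by
      rw [mul_right_comm, ← Real.rpow_add hμ]
      norm_num
      exact (div_eq_mul_inv _ _).symm
    have h3 : μ ^ ((7 : ℝ) / 2) ≤ μ ^ 3 := by
      rw [← Real.rpow_natCast]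
      exact rle hμ hμ1 (by norm_num)
    have h4 : μ ^ ((7 : ℝ) / 2) / d ^ 3 ≤ μ ^ 3 / d ^ 3 :=
      div_le_div_of_nonneg_right h3 (by positivity)
    have h5 : 0 < μ ^ ((13 : ℝ) / 6) := by positivity
    rw [h2]
    linarith

/-- second error -/
theorem err2 (hN : 3 ≤ N) (hN5 : N ≤ 5) {d μ : ℝ} (hd : 0 < d) (hd1 : d ≤ 1) (hμ : 0 < μ)
    (h : μ ≤ d ^ 2) : μ ^ cc N * μ ^ ((2 : ℝ) / 3) ≤ Er N d μ := by
  have hμ1 := mu_le_one hd hd1 h
  rw [← Real.rpow_add hμ]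
  rcases cases345 hN hN5 with rfl | rfl | rfl
  · rw [Er3, cc3]
    have h3 : μ ^ ((1 : ℝ) / 2 + 2 / 3) ≤ μ ^ (1 : ℝ) := rle hμ hμ1 (by norm_num)
    rwa [Real.rpow_one] at h3
  · rw [Er4, cc4]
    have h5 : 0 < μ ^ 2 / d := by positivity
    norm_num
    linarith
  · rw [Er5, cc5]
    have h5 : 0 < μ ^ 3 / d ^ 3 := by positivity
    norm_num
    linarith

/-- third error -/
theorem err3 (hN : 3 ≤ N) (hN5 : N ≤ 5) {d μ : ℝ} (hd : 0 < d) (hd1 : d ≤ 1) (hμ : 0 < μ)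
    (h : μ ≤ d ^ 2) : d * (μ ^ cc N * μ ^ 2 / d ^ 2) ≤ Er N d μ := by
  have hμ1 := mu_le_one hd hd1 h
  have hm : μ ^ (1 : ℝ) = μ := Real.rpow_one μ
  have e0 : d * (μ ^ cc N * μ ^ 2 / d ^ 2) = μ ^ cc N * μ ^ 2 / d := by field_simp
  rw [e0]
  have hle1 : ∀ a : ℝ, 0 ≤ a → μ ^ a ≤ 1 := fun a ha => Real.rpow_le_one hμ.le hμ1 ha
  rcases cases345 hN hN5 with rfl | rfl | rfl
  · rw [Er3, cc3]
    have h2 := sqrt_le hd hμ h
    have h3 : μ ^ ((1 : ℝ) / 2) / d ≤ 1 := by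
      rw [div_le_one hd]
      exact h2
    calc μ ^ ((1 : ℝ) / 2) * μ ^ 2 / d = μ ^ ((1 : ℝ) / 2) / d * μ ^ 2 := by ring
      _ ≤ 1 * μ ^ 2 := mul_le_mul_of_nonneg_right h3 (by positivity)
      _ ≤ μ := by nlinarith
  · rw [Er4, cc4, hm]
    have h5 : 0 < μ ^ ((5 : ℝ) / 3) := by positivity
    have h6 : μ * μ ^ 2 / d ≤ μ ^ 2 / d :=
      div_le_div_of_nonneg_right (by nlinarith [sq_nonneg μ]) hd.le
    linarith
  · rw [Er5, cc5]
    have h5 : 0 < μ ^ ((13 : ℝ) / 6) := by positivity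
    have h6 : μ ^ ((3 : ℝ) / 2) ≤ μ ^ (1 : ℝ) := rle hμ hμ1 (by norm_num)
    rw [hm] at h6
    have h7 : μ ^ ((3 : ℝ) / 2) * μ ^ 2 ≤ μ ^ 3 := by
      calc μ ^ ((3 : ℝ) / 2) * μ ^ 2 ≤ μ * μ ^ 2 :=
            mul_le_mul_of_nonneg_right h6 (by positivity)
        _ = μ ^ 3 := by ring
    have h8 : μ ^ ((3 : ℝ) / 2) * μ ^ 2 / d ≤ μ ^ 3 / d ^ 3 := by
      rw [div_le_div_iff₀ hd (by positivity)]
      have h9 : d ^ 3 ≤ d := by nlinarith [sq_nonneg d]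
      calc μ ^ ((3 : ℝ) / 2) * μ ^ 2 * d ^ 3 ≤ μ ^ 3 * d ^ 3 :=
            mul_le_mul_of_nonneg_right h7 (by positivity)
        _ ≤ μ ^ 3 * d := mul_le_mul_of_nonneg_left h9 (by positivity)
    linarith

theorem err4 (hN : N = 3 ∨ N = 4) {d μ : ℝ} (hd : 0 < d) (hd1 : d ≤ 1) (hμ : 0 < μ)
    (h : μ ≤ d ^ 2) : μ ^ kp N ≤ Er N d μ := by
  have hμ1 := mu_le_one hd hd1 h
  rcases hN with rfl | rfl
  · rw [Er3]
    have h1 : kp 3 = 1 := by simp [kp]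
    rw [h1, Real.rpow_one]
  · rw [Er4]
    have h1 : kp 4 = 7 / 4 := by simp [kp]
    rw [h1]
    have h3 : μ ^ ((7 : ℝ) / 4) ≤ μ ^ ((5 : ℝ) / 3) := rle hμ hμ1 (by norm_num)
    have h5 : 0 < μ ^ 2 / d := by positivity
    linarith

theorem Er_pos (hN : 3 ≤ N) (hN5 : N ≤ 5) {d μ : ℝ} (hd : 0 < d) (hμ : 0 < μ) :
    0 < Er N d μ := by
  rcases cases345 hN hN5 with rfl | rfl | rfl
  · rw [Er3]; exact hμ
  · rw [Er4]; positivity
  · rw [Er5]; positivity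

theorem kp_q (hN : 3 ≤ N) (hN5 : N ≤ 5) : kp N ≤ pm N * cc N ∧ kp N ≤ N - pm N * cc N ∧
    (kp N < pm N * cc N ∨ kp N < N - pm N * cc N) := by
  rcases cases345 hN hN5 with rfl | rfl | rfl
  · rw [pm3, cc3]
    have h1 : kp 3 = 1 := by simp [kp]
    rw [h1]
    norm_num
  · rw [pm4, cc4]
    have h1 : kp 4 = 7 / 4 := by simp [kp]
    rw [h1]
    norm_num
  · rw [pm5, cc5]
    have h1 : kp 5 = 2 := by simp [kp]
    rw [h1]
    norm_num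

theorem kp_2 (hN : N = 3 ∨ N = 4) : kp N ≤ 2 * cc N ∧ kp N ≤ N - 2 * cc N ∧
    (kp N < 2 * cc N ∨ kp N < N - 2 * cc N) := by
  rcases hN with rfl | rfl
  · rw [cc3]
    have h1 : kp 3 = 1 := by simp [kp]
    rw [h1]
    norm_num
  · rw [cc4]
    have h1 : kp 4 = 7 / 4 := by simp [kp]
    rw [h1]
    norm_num

/-! ### sets -/

theorem annOpen (ρ : ℝ) : IsOpen (ann N ρ) :=
  (isOpen_lt continuous_const continuous_norm).inter (isOpen_lt continuous_norm continuous_const)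

theorem norm_cen {e : E N} (he : ‖e‖ = 1) {d : ℝ} (hd1 : d ≤ 1) : ‖cen e d‖ = 1 - d := by
  unfold cen
  rw [norm_smul, he, mul_one, Real.norm_eq_abs, abs_of_nonneg (by linarith)]

theorem ann_sub {ρ : ℝ} {e : E N} (he : ‖e‖ = 1) {d : ℝ} (hd : 0 < d) (hd1 : d ≤ 1) :
    ann N ρ ⊆ ball (cen e d) 3 := by
  intro x hx
  rw [mem_ball, dist_eq_norm]
  have h1 := norm_sub_le x (cen e d)
  rw [norm_cen he hd1] at h1
  have h2 := hx.2
  linarith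

theorem ball_sub {ρ : ℝ} {e : E N} (he : ‖e‖ = 1) {d : ℝ} (hd : 0 < d) (hd1 : d ≤ 1)
    (hd2 : 2 * d < 1 - ρ) : ball (cen e d) d ⊆ ann N ρ := by
  intro x hx
  rw [mem_ball, dist_eq_norm] at hx
  have h1 : ‖x‖ ≤ ‖x - cen e d‖ + ‖cen e d‖ := by
    have := norm_add_le (x - cen e d) (cen e d)
    rwa [sub_add_cancel] at this
  have h2 : ‖cen e d‖ ≤ ‖x‖ + ‖x - cen e d‖ := by
    have := norm_sub_le x (x - cen e d)
    rwa [sub_sub_cancel] at this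
  rw [norm_cen he hd1] at h1 h2
  constructor <;> linarith

theorem cen_mem {ρ : ℝ} {e : E N} (he : ‖e‖ = 1) {d : ℝ} (hd : 0 < d) (hd1 : d ≤ 1)
    (hd2 : 2 * d < 1 - ρ) : cen e d ∈ ann N ρ := ball_sub he hd hd1 hd2 (mem_ball_self hd)

/-! ### integrals -/

theorem abs_int_le {Ω : Set (E N)} (hΩ : MeasurableSet Ω) {f g : E N → ℝ}
    (hg : IntegrableOn g Ω) (h : ∀ᵐ x, x ∈ Ω → |f x| ≤ g x) :
    |∫ x in Ω, f x| ≤ ∫ x in Ω, g x := by
  rw [← Real.norm_eq_abs]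
  exact norm_integral_le_of_norm_le hg ((ae_restrict_iff' hΩ).2 h)

theorem int_of_le {Ω : Set (E N)} (hΩ : MeasurableSet Ω) {f g : E N → ℝ}
    (hf : AEStronglyMeasurable f (volume.restrict Ω))
    (hg : IntegrableOn g Ω) (h : ∀ᵐ x, x ∈ Ω → |f x| ≤ g x) : IntegrableOn f Ω :=
  Integrable.mono' hg hf ((ae_restrict_iff' hΩ).2 h)

theorem pow_ann (hN : 3 ≤ N) {q k : ℝ} (hq : 0 < q) (h1 : k ≤ q * cc N)
    (h2 : k ≤ N - q * cc N) (h3 : k < q * cc N ∨ k < N - q * cc N) (ρ : ℝ) : ∃ C : ℝ, 0 < C ∧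
    ∀ (e : E N) (d μ : ℝ), ‖e‖ = 1 → 0 < d → d ≤ 1 → 0 < μ → μ ≤ 1 →
      IntegrableOn (fun x => bub N μ (cen e d) x ^ q) (ann N ρ) ∧
      ∫ x in ann N ρ, bub N μ (cen e d) x ^ q ≤ C * μ ^ k := by
  obtain ⟨C, hC, h⟩ := int_bub_pow hN hq h1 h2 h3
  refine ⟨C, hC, fun e d μ he hd hd1 hμ hμ1 => ?_⟩
  obtain ⟨a, b⟩ := h μ (cen e d) hμ hμ1
  have hsub := ann_sub (ρ := ρ) he hd hd1
  refine ⟨IntegrableOn.mono_set a hsub, (setIntegral_mono_set a ?_ hsub.eventuallyLE).trans b⟩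
  exact ae_of_all _ fun x => Real.rpow_nonneg (bub_pos hN hμ _ _).le _

end D4b

open D4b

/-- (d) -/
theorem int_sq34 (hN : N = 3 ∨ N = 4) {ρ : ℝ} (hρ : 0 < ρ) (hρ1 : ρ < 1) :
    ∃ C d₁ : ℝ, 0 < C ∧ 0 < d₁ ∧ ρ < 1 - d₁ ∧ ∀ (e : E N) (d μ : ℝ), ‖e‖ = 1 → 0 < d → d < d₁ →
      0 < μ → μ ≤ d ^ 2 → |∫ x in ann N ρ, fn (WW e ρ d μ) x ^ 2| ≤ C * Er N d μ := by
  have hN3 : 3 ≤ N := by omega
  have hN5 : N ≤ 5 := by omega
  obtain ⟨C₁, d₁, hC₁, hd₁, hρd, hP⟩ := proj_est hN3 hN5 hρ hρ1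
  obtain ⟨C, hC, hU⟩ := pow_ann hN3 (q := 2) (k := kp N) two_pos (kp_2 hN).1 (kp_2 hN).2.1
    (kp_2 hN).2.2 ρ
  refine ⟨C, d₁, hC, hd₁, hρd, fun e d μ he hd hdd hμ hμd => ?_⟩
  have hd1 : d ≤ 1 := by linarith
  obtain ⟨hi, hb⟩ := hU e d μ he hd hd1 hμ (mu_le_one hd hd1 hμd)
  refine (abs_int_le (annOpen ρ).measurableSet hi ?_).trans (hb.trans
    (mul_le_mul_of_nonneg_left (err4 hN hd hd1 hμ hμd) hC.le))
  filter_upwards [hP e d μ he hd hdd hμ hμd] with x hx hxm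
  obtain ⟨w0, wU, -⟩ := hx hxm
  rw [abs_of_nonneg (sq_nonneg _), Real.rpow_two]
  exact pow_le_pow_left₀ w0 wU 2

/-- (c) -/
theorem int_inter (hN : 3 ≤ N) (hN5 : N ≤ 5) {ρ : ℝ} (hρ : 0 < ρ) (hρ1 : ρ < 1) (K : ℝ) :
    ∃ C d₁ : ℝ, 0 < C ∧ 0 < d₁ ∧ ρ < 1 - d₁ ∧ ∀ (e : E N) (d μ β : ℝ), ‖e‖ = 1 → 0 < d → d < d₁ →
      0 < μ → μ ≤ d ^ 2 → (β = 1 ∨ β = -1) → ∀ V : E N → ℝ, ContinuousOn V (ann N ρ) →
      (∀ x ∈ ann N ρ, |V x| ≤ K * (1 - ‖x‖)) →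
      |∫ x in ann N ρ, (NL N (V x + β * fn (WW e ρ d μ) x) - NL N (V x)
          - NL N (β * fn (WW e ρ d μ) x) - nl N (V x) * (β * fn (WW e ρ d μ) x)
          - nl N (β * fn (WW e ρ d μ) x) * V x)| ≤ C * Er N d μ := by
  obtain ⟨C₁, d₁, hC₁, hd₁, hρd, hP⟩ := proj_est hN hN5 hρ hρ1
  have hVK : ∀ V : E N → ℝ, (∀ x ∈ ann N ρ, |V x| ≤ K * (1 - ‖x‖)) →
      ∀ x ∈ ann N ρ, |V x| ≤ |K| := fun V hV x hx => by
    have h1 := hV x hx
    have h2 : 0 < ‖x‖ := hρ.trans hx.1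
    have h3 := hx.2
    calc |V x| ≤ K * (1 - ‖x‖) := h1
      _ ≤ |K| * (1 - ‖x‖) := mul_le_mul_of_nonneg_right (le_abs_self K) (by linarith)
      _ ≤ |K| * 1 := mul_le_mul_of_nonneg_left (by linarith) (abs_nonneg K)
      _ = |K| := mul_one _
  have hβ1 : ∀ β w : ℝ, (β = 1 ∨ β = -1) → |β * w| = |w| := fun β w h => by
    rcases h with rfl | rfl <;> simp
  by_cases h5 : N = 5
  · subst h5
    obtain ⟨A, hA, hsplit⟩ := NL_split5
    obtain ⟨C, hC, hU⟩ := pow_ann hN (q := 5 / 3) (k := 13 / 6) (by norm_num)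
      (by rw [cc5]; norm_num) (by rw [cc5]; norm_num) (by rw [cc5]; norm_num) ρ
    refine ⟨A * (|K| ^ ((5 : ℝ) / 3) + 1) * C, d₁, by positivity, hd₁, hρd,
      fun e d μ β he hd hdd hμ hμd hβ V hVc hV => ?_⟩
    have hd1 : d ≤ 1 := by linarith
    obtain ⟨hi, hb⟩ := hU e d μ he hd hd1 hμ (mu_le_one hd hd1 hμd)
    have hg := hi.const_mul (A * (|K| ^ ((5 : ℝ) / 3) + 1))
    refine (abs_int_le (annOpen ρ).measurableSet hg ?_).trans ?_
    · filter_upwards [hP e d μ he hd hdd hμ hμd] with x hx hxm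
      obtain ⟨w0, wU, -⟩ := hx hxm
      refine (hsplit _ _).trans ?_
      rw [hβ1 β _ hβ, abs_of_nonneg w0]
      have k1 : |V x| ^ ((5 : ℝ) / 3) ≤ |K| ^ ((5 : ℝ) / 3) + 1 :=
        (Real.rpow_le_rpow (abs_nonneg _) (hVK V hV x hxm) (by norm_num)).trans (by linarith)
      have k2 : fn (WW e ρ d μ) x ^ ((5 : ℝ) / 3) ≤ bub 5 μ (cen e d) x ^ ((5 : ℝ) / 3) :=
        Real.rpow_le_rpow w0 wU (by norm_num)
      exact mul_le_mul (mul_le_mul_of_nonneg_left k1 hA.le) k2 (Real.rpow_nonneg w0 _)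
        (by positivity)
    · rw [integral_const_mul]
      have h6 : μ ^ ((13 : ℝ) / 6) ≤ Er 5 d μ := by
        rw [Er5]
        have : 0 < μ ^ 3 / d ^ 3 := by positivity
        linarith
      calc A * (|K| ^ ((5 : ℝ) / 3) + 1) * ∫ x in ann 5 ρ, bub 5 μ (cen e d) x ^ ((5 : ℝ) / 3)
          ≤ A * (|K| ^ ((5 : ℝ) / 3) + 1) * (C * μ ^ ((13 : ℝ) / 6)) :=
            mul_le_mul_of_nonneg_left hb (by positivity)
        _ = A * (|K| ^ ((5 : ℝ) / 3) + 1) * C * μ ^ ((13 : ℝ) / 6) := by ring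
        _ ≤ _ := mul_le_mul_of_nonneg_left h6 (by positivity)
  · have h34 : N = 3 ∨ N = 4 := by omega
    obtain ⟨A, hA, hsplit⟩ := NL_split34 h34
    obtain ⟨C, hC, hU⟩ := pow_ann hN (q := 2) (k := kp N) two_pos (kp_2 h34).1 (kp_2 h34).2.1
      (kp_2 h34).2.2 ρ
    obtain ⟨C', hC', hU'⟩ := pow_ann hN (q := pm N) (k := kp N) (BI.pm_pos hN) (kp_q hN hN5).1
      (kp_q hN hN5).2.1 (kp_q hN hN5).2.2 ρ
    refine ⟨A * (|K| ^ pm N * C + |K| ^ 2 * C') + 1, d₁, by positivity, hd₁, hρd,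
      fun e d μ β he hd hdd hμ hμd hβ V hVc hV => ?_⟩
    have hd1 : d ≤ 1 := by linarith
    obtain ⟨hi, hb⟩ := hU e d μ he hd hd1 hμ (mu_le_one hd hd1 hμd)
    obtain ⟨hi', hb'⟩ := hU' e d μ he hd hd1 hμ (mu_le_one hd hd1 hμd)
    have hg := ((hi.const_mul (|K| ^ pm N)).add (hi'.const_mul (|K| ^ 2))).const_mul A
    refine (abs_int_le (annOpen ρ).measurableSet hg ?_).trans ?_
    · filter_upwards [hP e d μ he hd hdd hμ hμd] with x hx hxm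
      obtain ⟨w0, wU, -⟩ := hx hxm
      refine (hsplit _ _).trans (mul_le_mul_of_nonneg_left ?_ hA.le)
      have hK := hVK V hV x hxm
      have k1 : |V x| ^ pm N ≤ |K| ^ pm N :=
        Real.rpow_le_rpow (abs_nonneg _) hK (BI.pm_pos hN).le
      have k2 : (β * fn (WW e ρ d μ) x) ^ 2 ≤ bub N μ (cen e d) x ^ (2 : ℝ) := by
        rw [← sq_abs, hβ1 β _ hβ, abs_of_nonneg w0, Real.rpow_two]
        exact pow_le_pow_left₀ w0 wU 2
      have k3 : |β * fn (WW e ρ d μ) x| ^ pm N ≤ bub N μ (cen e d) x ^ pm N := by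
        rw [hβ1 β _ hβ, abs_of_nonneg w0]
        exact Real.rpow_le_rpow w0 wU (BI.pm_pos hN).le
      have k4 : V x ^ 2 ≤ |K| ^ 2 := by
        rw [← sq_abs]
        exact pow_le_pow_left₀ (abs_nonneg _) hK 2
      exact add_le_add (mul_le_mul k1 k2 (sq_nonneg _) (by positivity))
        (mul_le_mul k4 k3 (Real.rpow_nonneg (abs_nonneg _) _) (by positivity))
    · have h8 : ∫ x in ann N ρ, A * ((fun x => |K| ^ pm N * bub N μ (cen e d) x ^ (2 : ℝ)) +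
          fun x => |K| ^ 2 * bub N μ (cen e d) x ^ pm N) x
          = A * (|K| ^ pm N * (∫ x in ann N ρ, bub N μ (cen e d) x ^ (2 : ℝ))
            + |K| ^ 2 * ∫ x in ann N ρ, bub N μ (cen e d) x ^ pm N) := by
        rw [integral_const_mul, integral_add' (hi.const_mul _) (hi'.const_mul _),
          integral_const_mul, integral_const_mul]
      refine h8.le.trans ?_
      have h6 := err4 h34 hd hd1 hμ hμd
      have h7 : 0 < μ ^ kp N := by positivity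
      have hE := Er_pos hN hN5 hd hμ
      calc A * (|K| ^ pm N * (∫ x in ann N ρ, bub N μ (cen e d) x ^ (2 : ℝ))
            + |K| ^ 2 * ∫ x in ann N ρ, bub N μ (cen e d) x ^ pm N)
          ≤ A * (|K| ^ pm N * (C * μ ^ kp N) + |K| ^ 2 * (C' * μ ^ kp N)) := by
            refine mul_le_mul_of_nonneg_left (add_le_add (mul_le_mul_of_nonneg_left hb ?_)
              (mul_le_mul_of_nonneg_left hb' ?_)) hA.le <;> positivity
        _ = A * (|K| ^ pm N * C + |K| ^ 2 * C') * μ ^ kp N := by ring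
        _ ≤ A * (|K| ^ pm N * C + |K| ^ 2 * C') * Er N d μ :=
            mul_le_mul_of_nonneg_left h6 (by positivity)
        _ ≤ _ := mul_le_mul_of_nonneg_right (by linarith) hE.le

theorem int_sq5 {ρ : ℝ} (hρ : 0 < ρ) (hρ1 : ρ < 1) :
    ∃ C d₁ : ℝ, 0 < C ∧ 0 < d₁ ∧ ρ < 1 - d₁ ∧ ∀ (e : E 5) (d μ : ℝ), ‖e‖ = 1 → 0 < d → d < d₁ →
      0 < μ → μ ≤ d ^ 2 → |(∫ x in ann 5 ρ, fn (WW e ρ d μ) x ^ 2) - bN 5 * μ ^ 2| ≤ C * Er 5 d μ := by
  obtain ⟨C₁, d₁, hC₁, hd₁, hρd, hP⟩ := proj_est (N := 5) (by norm_num) le_rfl hρ hρ1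
  obtain ⟨C₂, hC₂, hU⟩ := pow_ann (N := 5) (by norm_num) (q := 1) (k := 3 / 2) one_pos
    (by rw [cc5]; norm_num) (by rw [cc5]; norm_num) (by rw [cc5]; norm_num) ρ
  obtain ⟨C₃, hC₃, hT⟩ := tail_sq5
  refine ⟨2 * C₁ * C₂ + C₃, min d₁ ((1 - ρ) / 2), by positivity, lt_min hd₁ (by linarith), ?_,
    fun e d μ he hd hdd hμ hμd => ?_⟩
  · have := min_le_left d₁ ((1 - ρ) / 2)
    linarith
  have hdd1 : d < d₁ := hdd.trans_le (min_le_left _ _)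
  have hdd2 : 2 * d < 1 - ρ := by
    have := hdd.trans_le (min_le_right _ _)
    linarith
  have hd1 : d ≤ 1 := by linarith
  have hμ1 := mu_le_one hd hd1 hμd
  obtain ⟨hi, hb⟩ := hU e d μ he hd hd1 hμ hμ1
  simp only [Real.rpow_one] at hi hb
  set Ω := ann 5 ρ with hΩ
  have hΩm : MeasurableSet Ω := (annOpen ρ).measurableSet
  set U := bub 5 μ (cen e d) with hUdef
  set W := fn (WW e ρ d μ) with hWdef
  obtain ⟨hs1, hs2⟩ := int_bub_sq5 hμ (cen e d)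
  set B := C₁ * μ ^ cc 5 * d ^ (2 - ((5 : ℕ) : ℝ)) with hB
  have hB0 : 0 ≤ B := by positivity
  have hWae := hP e d μ he hd hdd1 hμ hμd
  -- first difference
  have hg : IntegrableOn (fun x => 2 * B * U x) Ω := hi.const_mul (2 * B)
  have hle : ∀ᵐ x, x ∈ Ω → |W x ^ 2 - U x ^ 2| ≤ 2 * B * U x := by
    filter_upwards [hWae] with x hx hxm
    obtain ⟨w0, wU, wB, -⟩ := hx hxm
    have hU0 : 0 < U x := bub_pos (by norm_num) hμ _ _
    have h1 : W x ^ 2 - U x ^ 2 = -((U x - W x) * (U x + W x)) := by ring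
    have h2 : 0 ≤ U x - W x := sub_nonneg.2 wU
    rw [h1, abs_neg, abs_mul, abs_of_nonneg h2, abs_of_nonneg (by linarith : 0 ≤ U x + W x)]
    calc (U x - W x) * (U x + W x) ≤ B * (U x + U x) :=
          mul_le_mul wB (by linarith) (by linarith) hB0
      _ = 2 * B * U x := by ring
  have hd := abs_int_le hΩm hg hle
  have hWm : AEStronglyMeasurable (fun x => W x ^ 2 - U x ^ 2) (volume.restrict Ω) :=
    (((fn_meas _).pow 2).sub
      ((BI.bub_cont (by norm_num) hμ _).pow 2).aestronglyMeasurable).restrict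
  have hint := int_of_le hΩm hWm hg hle
  have hWint : ∫ x in Ω, W x ^ 2 = (∫ x in Ω, (W x ^ 2 - U x ^ 2)) + ∫ x in Ω, U x ^ 2 := by
    rw [← integral_add hint hs1.integrableOn]
    refine integral_congr_ae (ae_of_all _ fun x => ?_)
    show W x ^ 2 = W x ^ 2 - U x ^ 2 + U x ^ 2
    ring
  have hcomp : (∫ x in Ω, U x ^ 2) + ∫ x in Ωᶜ, U x ^ 2 = bN 5 * μ ^ 2 := by
    rw [integral_add_compl hΩm hs1, hs2]
  have htail : ∫ x in Ωᶜ, U x ^ 2 ≤ C₃ * μ ^ 3 / d := by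
    refine (setIntegral_mono_set hs1.integrableOn (ae_of_all _ fun x => sq_nonneg _)
      (compl_subset_compl.2 (ball_sub he ‹0 < d› hd1 hdd2)).eventuallyLE).trans
      (hT μ d (cen e d) hμ ‹0 < d›)
  have htail0 : 0 ≤ ∫ x in Ωᶜ, U x ^ 2 := integral_nonneg fun x => sq_nonneg _
  have hd0 : 0 < d := ‹0 < d›
  rw [integral_const_mul] at hd
  have e1 : 2 * B * ∫ x in Ω, U x ≤ 2 * C₁ * C₂ * (μ ^ 3 / d ^ 3) := by
    calc 2 * B * ∫ x in Ω, U x ≤ 2 * B * (C₂ * μ ^ ((3 : ℝ) / 2)) :=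
          mul_le_mul_of_nonneg_left hb (by positivity)
      _ = 2 * C₁ * C₂ * (μ ^ 3 / d ^ 3) := by
          rw [hB, dpow5 hd0, cc5]
          have h9 : μ ^ ((3 : ℝ) / 2) * μ ^ ((3 : ℝ) / 2) = μ ^ 3 := by
            rw [← Real.rpow_add hμ, show (3 : ℝ) / 2 + 3 / 2 = ((3 : ℕ) : ℝ) by norm_num,
              Real.rpow_natCast]
          rw [← h9]
          ring
  have e2 : C₃ * μ ^ 3 / d ≤ C₃ * (μ ^ 3 / d ^ 3) := by
    rw [mul_div_assoc]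
    refine mul_le_mul_of_nonneg_left ?_ hC₃.le
    refine div_le_div_of_nonneg_left (by positivity) (by positivity) ?_
    nlinarith [sq_nonneg d]
  have e3 : μ ^ 3 / d ^ 3 ≤ Er 5 d μ := by
    rw [Er5]
    have : 0 < μ ^ ((13 : ℝ) / 6) := by positivity
    linarith
  have hfin : |(∫ x in Ω, W x ^ 2) - bN 5 * μ ^ 2| ≤ (2 * C₁ * C₂ + C₃) * (μ ^ 3 / d ^ 3) := by
    have h10 := abs_le.1 hd
    rw [abs_le]
    constructor
    · rw [hWint, ← hcomp]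
      linarith [h10.1]
    · rw [hWint, ← hcomp]
      linarith [h10.2]
  exact hfin.trans (mul_le_mul_of_nonneg_left e3 (by positivity))

/-- (b) -/
theorem int_lin (hN : 3 ≤ N) (hN5 : N ≤ 5) {ρ : ℝ} (hρ : 0 < ρ) (hρ1 : ρ < 1) (K : ℝ) :
    ∃ C d₁ : ℝ, 0 < C ∧ 0 < d₁ ∧ ρ < 1 - d₁ ∧ ∀ (e : E N) (d μ : ℝ), ‖e‖ = 1 → 0 < d → d < d₁ →
      0 < μ → μ ≤ d ^ 2 → ∀ V : E N → ℝ, ContinuousOn V (ann N ρ) →
      (∀ x ∈ ann N ρ, |V x| ≤ K * (1 - ‖x‖)) →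
      (∀ x ∈ ann N ρ, |V x - V (cen e d)| ≤ K * ‖x - cen e d‖ ^ ((2 : ℝ) / 3)) →
      |(∫ x in ann N ρ, nl N (fn (WW e ρ d μ) x) * V x) - aN N * μ ^ cc N * V (cen e d)|
        ≤ C * Er N d μ := by
  obtain ⟨C₁, d₁, hC₁, hd₁, hρd, hP⟩ := proj_est hN hN5 hρ hρ1
  obtain ⟨C₂, hC₂, hU⟩ := pow_ann hN (q := pm N) (k := kp N) (BI.pm_pos hN) (kp_q hN hN5).1
      (kp_q hN hN5).2.1 (kp_q hN hN5).2.2 ρ
  obtain ⟨C₃, hC₃, hM⟩ := moment_nl hN (θ := 2 / 3) (by norm_num) (by norm_num)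
  obtain ⟨C₄, hC₄, hT⟩ := tail_nl hN
  obtain ⟨C₅, hC₅, hlip⟩ := nl_lip hN hN5
  refine ⟨2 * C₅ * C₁ * |K| * C₂ + |K| * C₃ + |K| * C₄ + 1, min d₁ ((1 - ρ) / 2), by positivity,
    lt_min hd₁ (by linarith), ?_, fun e d μ he hd hdd hμ hμd V hVc hV hVH => ?_⟩
  · have := min_le_left d₁ ((1 - ρ) / 2)
    linarith
  have hdd1 : d < d₁ := hdd.trans_le (min_le_left _ _)
  have hdd2 : 2 * d < 1 - ρ := by
    have := hdd.trans_le (min_le_right _ _)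
    linarith
  have hd1 : d ≤ 1 := by linarith
  have hμ1 := mu_le_one hd hd1 hμd
  obtain ⟨hi, hb⟩ := hU e d μ he hd hd1 hμ hμ1
  obtain ⟨hs1, hs2⟩ := int_nl_bub hN hμ (cen e d)
  obtain ⟨hm1, hm2⟩ := hM μ (cen e d) hμ
  set Ω := ann N ρ with hΩ
  have hΩm : MeasurableSet Ω := (annOpen ρ).measurableSet
  have hξ : cen e d ∈ Ω := cen_mem he hd hd1 hdd2
  set U := bub N μ (cen e d) with hUdef
  set W := fn (WW e ρ d μ) with hWdef
  set B := C₁ * μ ^ cc N * d ^ (2 - (N : ℝ)) with hB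
  have hB0 : 0 ≤ B := by positivity
  have hWae := hP e d μ he hd hdd1 hμ hμd
  have hVK : ∀ x ∈ Ω, |V x| ≤ |K| := fun x hx => by
    have h1 := hV x hx
    have h2 : 0 < ‖x‖ := hρ.trans hx.1
    have h3 := hx.2
    calc |V x| ≤ K * (1 - ‖x‖) := h1
      _ ≤ |K| * (1 - ‖x‖) := mul_le_mul_of_nonneg_right (le_abs_self K) (by linarith)
      _ ≤ |K| * 1 := mul_le_mul_of_nonneg_left (by linarith) (abs_nonneg K)
      _ = |K| := mul_one _
  have hnlc : Continuous (nl N) :=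
    continuous_iff_continuousAt.2 fun u => (hasDerivAt_nl hN hN5 u).continuousAt
  have hUc : Continuous U := BI.bub_cont hN hμ _
  have hVm : AEStronglyMeasurable V (volume.restrict Ω) := hVc.aestronglyMeasurable hΩm
  have hWm : AEStronglyMeasurable W (volume.restrict Ω) := (fn_meas _).restrict
  have hnl0 : ∀ x, 0 ≤ nl N (U x) := fun x => by
    rw [hUdef, BI.nl_bub hN hμ]
    exact Real.rpow_nonneg (bub_pos hN hμ _ _).le _
  -- f1
  have hg1 : IntegrableOn (fun x => 2 * C₅ * B * |K| * U x ^ pm N) Ω := hi.const_mul _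
  have hle1 : ∀ᵐ x, x ∈ Ω → |(nl N (W x) - nl N (U x)) * V x| ≤
      2 * C₅ * B * |K| * U x ^ pm N := by
    filter_upwards [hWae] with x hx hxm
    obtain ⟨w0, wU, wB, -⟩ := hx hxm
    have hU0 : 0 < U x := bub_pos hN hμ _ _
    have h1 := hlip (W x) (U x)
    rw [abs_of_nonneg w0, abs_of_pos hU0, abs_sub_comm (W x) (U x),
      abs_of_nonneg (sub_nonneg.2 wU)] at h1
    have h2 : W x ^ pm N ≤ U x ^ pm N := Real.rpow_le_rpow w0 wU (BI.pm_pos hN).le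
    have h3 : 0 ≤ U x ^ pm N := Real.rpow_nonneg hU0.le _
    have h4 : |nl N (W x) - nl N (U x)| ≤ C₅ * (U x ^ pm N + U x ^ pm N) * B :=
      h1.trans (mul_le_mul (mul_le_mul_of_nonneg_left (by linarith) hC₅.le) wB
        (sub_nonneg.2 wU) (by positivity))
    rw [abs_mul]
    calc |nl N (W x) - nl N (U x)| * |V x| ≤ (C₅ * (U x ^ pm N + U x ^ pm N) * B) * |K| :=
          mul_le_mul h4 (hVK x hxm) (abs_nonneg _) (by positivity)
      _ = 2 * C₅ * B * |K| * U x ^ pm N := by ring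
  have hi1 : IntegrableOn (fun x => (nl N (W x) - nl N (U x)) * V x) Ω := int_of_le hΩm
    (((hnlc.comp_aestronglyMeasurable hWm).sub
      (hnlc.comp hUc).aestronglyMeasurable.restrict).mul hVm) hg1 hle1
  have hb1 := abs_int_le hΩm hg1 hle1
  -- f2
  have hg2 : IntegrableOn (fun x => |K| * (nl N (U x) * ‖x - cen e d‖ ^ ((2 : ℝ) / 3))) Ω :=
    (hm1.integrableOn).const_mul _
  have hle2 : ∀ᵐ x, x ∈ Ω → |nl N (U x) * (V x - V (cen e d))| ≤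
      |K| * (nl N (U x) * ‖x - cen e d‖ ^ ((2 : ℝ) / 3)) := by
    refine ae_of_all _ fun x hxm => ?_
    rw [abs_mul, abs_of_nonneg (hnl0 x)]
    have h1 : |V x - V (cen e d)| ≤ |K| * ‖x - cen e d‖ ^ ((2 : ℝ) / 3) :=
      (hVH x hxm).trans (mul_le_mul_of_nonneg_right (le_abs_self K)
        (Real.rpow_nonneg (norm_nonneg _) _))
    calc nl N (U x) * |V x - V (cen e d)|
        ≤ nl N (U x) * (|K| * ‖x - cen e d‖ ^ ((2 : ℝ) / 3)) :=
          mul_le_mul_of_nonneg_left h1 (hnl0 x)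
      _ = _ := by ring
  have hi2 : IntegrableOn (fun x => nl N (U x) * (V x - V (cen e d))) Ω := int_of_le hΩm
    ((hnlc.comp hUc).aestronglyMeasurable.restrict.mul
      (hVm.sub aestronglyMeasurable_const)) hg2 hle2
  have hb2 := abs_int_le hΩm hg2 hle2
  -- f3
  have hi3 : IntegrableOn (fun x => nl N (U x) * V (cen e d)) Ω :=
    hs1.integrableOn.mul_const _
  have hsum : ∫ x in Ω, nl N (W x) * V x = (∫ x in Ω, (nl N (W x) - nl N (U x)) * V x)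
      + (∫ x in Ω, nl N (U x) * (V x - V (cen e d)))
      + (∫ x in Ω, nl N (U x)) * V (cen e d) := by
    have hi12 : IntegrableOn (fun x => (nl N (W x) - nl N (U x)) * V x +
        nl N (U x) * (V x - V (cen e d))) Ω := hi1.add hi2
    rw [← integral_mul_const, ← integral_add hi1 hi2, ← integral_add hi12 hi3]
    refine integral_congr_ae (ae_of_all _ fun x => ?_)
    simp only [Pi.add_apply]
    ring
  have hcomp : (∫ x in Ω, nl N (U x)) + ∫ x in Ωᶜ, nl N (U x) = aN N * μ ^ cc N := by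
    rw [integral_add_compl hΩm hs1, hs2]
  have htail : ∫ x in Ωᶜ, nl N (U x) ≤ C₄ * μ ^ cc N * μ ^ 2 / d ^ 2 :=
    (setIntegral_mono_set hs1.integrableOn (ae_of_all _ hnl0)
      (compl_subset_compl.2 (ball_sub he hd hd1 hdd2)).eventuallyLE).trans
      (hT μ d (cen e d) hμ hd)
  have htail0 : 0 ≤ ∫ x in Ωᶜ, nl N (U x) := integral_nonneg fun x => hnl0 x
  have hVξ : |V (cen e d)| ≤ |K| * d := by
    have h1 := hV _ hξ
    rw [norm_cen he hd1] at h1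
    calc |V (cen e d)| ≤ K * (1 - (1 - d)) := h1
      _ = K * d := by ring
      _ ≤ |K| * d := mul_le_mul_of_nonneg_right (le_abs_self K) hd.le
  have hE := Er_pos hN hN5 hd hμ
  have n1 : |∫ x in Ω, (nl N (W x) - nl N (U x)) * V x| ≤
      2 * C₅ * C₁ * |K| * C₂ * Er N d μ := by
    refine hb1.trans ?_
    rw [integral_const_mul]
    calc 2 * C₅ * B * |K| * ∫ x in Ω, U x ^ pm N
        ≤ 2 * C₅ * B * |K| * (C₂ * μ ^ kp N) := mul_le_mul_of_nonneg_left hb (by positivity)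
      _ = 2 * C₅ * C₁ * |K| * C₂ * (μ ^ cc N * d ^ (2 - (N : ℝ)) * μ ^ kp N) := by
          rw [hB]
          ring
      _ ≤ _ := mul_le_mul_of_nonneg_left (err1 hN hN5 hd hd1 hμ hμd) (by positivity)
  have n2 : |∫ x in Ω, nl N (U x) * (V x - V (cen e d))| ≤ |K| * C₃ * Er N d μ := by
    refine hb2.trans ?_
    rw [integral_const_mul]
    have h1 : ∫ x in Ω, nl N (U x) * ‖x - cen e d‖ ^ ((2 : ℝ) / 3) ≤
        C₃ * μ ^ cc N * μ ^ ((2 : ℝ) / 3) := by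
      refine (setIntegral_le_integral hm1 (ae_of_all _ fun x => ?_)).trans hm2
      exact mul_nonneg (hnl0 x) (Real.rpow_nonneg (norm_nonneg _) _)
    calc |K| * ∫ x in Ω, nl N (U x) * ‖x - cen e d‖ ^ ((2 : ℝ) / 3)
        ≤ |K| * (C₃ * μ ^ cc N * μ ^ ((2 : ℝ) / 3)) :=
          mul_le_mul_of_nonneg_left h1 (abs_nonneg K)
      _ = |K| * C₃ * (μ ^ cc N * μ ^ ((2 : ℝ) / 3)) := by ring
      _ ≤ _ := mul_le_mul_of_nonneg_left (err2 hN hN5 hd hd1 hμ hμd) (by positivity)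
  have n3 : |(∫ x in Ωᶜ, nl N (U x)) * V (cen e d)| ≤ |K| * C₄ * Er N d μ := by
    rw [abs_mul, abs_of_nonneg htail0]
    calc (∫ x in Ωᶜ, nl N (U x)) * |V (cen e d)|
        ≤ (C₄ * μ ^ cc N * μ ^ 2 / d ^ 2) * (|K| * d) :=
          mul_le_mul htail hVξ (abs_nonneg _) (by positivity)
      _ = |K| * C₄ * (d * (μ ^ cc N * μ ^ 2 / d ^ 2)) := by ring
      _ ≤ _ := mul_le_mul_of_nonneg_left (err3 hN hN5 hd hd1 hμ hμd) (by positivity)
  have hfinal : (∫ x in Ω, nl N (W x) * V x) - aN N * μ ^ cc N * V (cen e d)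
      = (∫ x in Ω, (nl N (W x) - nl N (U x)) * V x)
      + (∫ x in Ω, nl N (U x) * (V x - V (cen e d)))
      + -((∫ x in Ωᶜ, nl N (U x)) * V (cen e d)) := by
    rw [hsum, ← hcomp]
    ring
  rw [hfinal]
  refine (abs_add_three _ _ _).trans ?_
  rw [abs_neg]
  nlinarith [n1, n2, n3, hE]

end Pool.Agent.helper13.BN
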