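import Pool.Agent.helper38.BN.BIntB
import Pool.Agent.helper58.BN.Solve
import Pool.Agent.helper13.BN.Glue
import Pool.Agent.helper15.BN.Func

set_option autoImplicit false

/-!
# MP_94a57f_an: residual and energy (module D6)
-/

open MeasureTheory Filter Topology Set Metric
open scoped ContDiff Gradient RealInnerProductSpace ENNReal

noncomputable section
namespace Pool.Agent.helper13.BN
variable {N : ℕ}

namespace D6

theorem vol_fin (ρ : ℝ) : volume (ann N ρ) < ⊤ :=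
  (measure_mono (show ann N ρ ⊆ ball 0 1 from fun x hx => by simpa using hx.2)).trans_lt
    measure_ball_lt_top

theorem int_cont {Ω : Set (E N)} (hΩ : MeasurableSet Ω) (hfin : volume Ω < ⊤) {v w : E N → ℝ}
    (hv : AEStronglyMeasurable v (volume.restrict Ω))
    (hw : AEStronglyMeasurable w (volume.restrict Ω)) {A B : ℝ}
    (hvA : ∀ᵐ x, x ∈ Ω → |v x| ≤ A) (hwB : ∀ᵐ x, x ∈ Ω → |w x| ≤ B) {G : ℝ → ℝ → ℝ}
    (hG : Continuous (fun p : ℝ × ℝ => G p.1 p.2)) :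
    IntegrableOn (fun x => G (v x) (w x)) Ω ∧
      ∀ q : ℝ, Mq q Ω (fun x => G (v x) (w x)) := by
  obtain ⟨M, hM⟩ := (isCompact_Icc.prod isCompact_Icc).exists_bound_of_continuousOn
    (s := Icc (-A) A ×ˢ Icc (-B) B) hG.continuousOn
  have hm : AEStronglyMeasurable (fun x => G (v x) (w x)) (volume.restrict Ω) :=
    hG.comp_aestronglyMeasurable (hv.prodMk hw)
  have hb : ∀ᵐ x ∂(volume.restrict Ω), ‖G (v x) (w x)‖ ≤ M := by
    rw [ae_restrict_iff' hΩ]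
    filter_upwards [hvA, hwB] with x h1 h2 hx
    exact hM (v x, w x) ⟨abs_le.1 (h1 hx), abs_le.1 (h2 hx)⟩
  have : IsFiniteMeasure (volume.restrict Ω) := ⟨by rwa [Measure.restrict_apply_univ]⟩
  refine ⟨?_, fun q => MemLp.of_bound hm M hb⟩
  exact Integrable.of_bound hm M hb

theorem add_int {Ω : Set (E N)} {f g : E N → ℝ} (hf : IntegrableOn f Ω) (hg : IntegrableOn g Ω) :
    IntegrableOn (fun x => f x + g x) Ω := hf.add hg

/-- the energy identity -/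
theorem energy_id (hN : 3 ≤ N) (hN5 : N ≤ 5) {ρ lam : ℝ} {v w : LV N} {V : E N → ℝ} {K B β : ℝ}
    (hv : Weak (ann N ρ) v (fun x => lam * fn v x + nl N (fn v x)))
    (hV : fn v =ᵐ[volume] V) (hVK : ∀ x ∈ ann N ρ, |V x| ≤ K) (hw : w ∈ DD (ann N ρ))
    (hwB : ∀ᵐ x, x ∈ ann N ρ → |fn w x| ≤ B) (hβ : β = 1 ∨ β = -1) :
    JJ ρ lam (v + β • w) - JJ ρ lam v = (‖w‖ ^ 2 / 2 - ∫ x in ann N ρ, NL N (fn w x))
      - lam / 2 * (∫ x in ann N ρ, fn w x ^ 2) - β * (∫ x in ann N ρ, nl N (fn w x) * V x)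
      - ∫ x in ann N ρ, (NL N (V x + β * fn w x) - NL N (V x) - NL N (β * fn w x)
          - nl N (V x) * (β * fn w x) - nl N (β * fn w x) * V x) := by
  set Ω := ann N ρ with hΩ
  have hΩm : MeasurableSet Ω := (D4b.annOpen ρ).measurableSet
  have hfin := vol_fin (N := N) ρ
  have hvu : v ∈ DD (univ : Set (E N)) := DD_le_univ58 _ hv.1
  have hwu : w ∈ DD (univ : Set (E N)) := DD_le_univ58 _ hw
  have hvm : AEStronglyMeasurable (fn v) (volume.restrict Ω) := (fn_meas _).restrict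
  have hwm : AEStronglyMeasurable (fn w) (volume.restrict Ω) := (fn_meas _).restrict
  have hvK : ∀ᵐ x, x ∈ Ω → |fn v x| ≤ K := by
    filter_upwards [hV] with x hx hxm
    rw [hx]
    exact hVK x hxm
  have hnlc : Continuous (nl N) :=
    continuous_iff_continuousAt.2 fun u => (hasDerivAt_nl hN hN5 u).continuousAt
  have hNLc : Continuous (NL N) :=
    continuous_iff_continuousAt.2 fun u => (hasDerivAt_NL hN hN5 u).continuousAt
  have hβ2 : β ^ 2 = 1 := by rcases hβ with rfl | rfl <;> norm_num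
  have hNLβ : ∀ s, NL N (β * s) = NL N s := fun s => by
    rcases hβ with rfl | rfl
    · rw [one_mul]
    · rw [neg_one_mul, NL_neg]
  have hnlβ : ∀ s, nl N (β * s) = β * nl N s := fun s => by
    rcases hβ with rfl | rfl
    · rw [one_mul, one_mul]
    · rw [neg_one_mul, neg_one_mul, nl_neg]
  have key := fun (G : ℝ → ℝ → ℝ) (hG : Continuous (fun p : ℝ × ℝ => G p.1 p.2)) =>
    (int_cont hΩm hfin hvm hwm hvK hwB hG)
  -- pairing
  have hg : Mq (td N) Ω (fun x => lam * fn v x + nl N (fn v x)) :=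
    (key (fun a _ => lam * a + nl N a) (by fun_prop)).2 _
  have hpair := (weak_pair hN hΩm hg hv hw).2
  -- expansion of the norm
  have hnorm : ‖v + β • w‖ ^ 2 = ‖v‖ ^ 2 + 2 * β * ⟪v, w⟫ + ‖w‖ ^ 2 := by
    rw [norm_add_sq_real, real_inner_smul_right, norm_smul, mul_pow, Real.norm_eq_abs, sq_abs, hβ2]
    ring
  have hfnu : fn (v + β • w) =ᵐ[volume] fun x => fn v x + β * fn w x := by
    filter_upwards [fn_add hN hvu (Submodule.smul_mem _ β hwu), fn_smul hN β hwu] with x h1 h2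
    rw [h1, h2]
  unfold JJ
  have e1 : ∫ x in Ω, (lam * fn (v + β • w) x ^ 2 / 2 + NL N (fn (v + β • w) x))
      = ∫ x in Ω, (lam * (fn v x + β * fn w x) ^ 2 / 2 + NL N (fn v x + β * fn w x)) := by
    refine integral_congr_ae (ae_restrict_of_ae ?_)
    filter_upwards [hfnu] with x hx
    rw [hx]
  have e2 : ∫ x in Ω, nl N (fn w x) * V x = ∫ x in Ω, nl N (fn w x) * fn v x := by
    refine integral_congr_ae (ae_restrict_of_ae ?_)
    filter_upwards [hV] with x hx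
    rw [hx]
  have e3 : ∫ x in Ω, (NL N (V x + β * fn w x) - NL N (V x) - NL N (β * fn w x)
          - nl N (V x) * (β * fn w x) - nl N (β * fn w x) * V x)
      = ∫ x in Ω, (NL N (fn v x + β * fn w x) - NL N (fn v x) - NL N (β * fn w x)
          - nl N (fn v x) * (β * fn w x) - nl N (β * fn w x) * fn v x) := by
    refine integral_congr_ae (ae_restrict_of_ae ?_)
    filter_upwards [hV] with x hx
    rw [hx]
  rw [e1, e2, e3, hnorm, hpair]
  have i1 := (key (fun a b => lam * (a + β * b) ^ 2 / 2 + NL N (a + β * b)) (by fun_prop)).1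
  have i2 := (key (fun a _ => lam * a ^ 2 / 2 + NL N a) (by fun_prop)).1
  have i3 := (key (fun a b => (lam * a + nl N a) * b) (by fun_prop)).1
  have i4 := (key (fun _ b => NL N b) (by fun_prop)).1
  have i5 := (key (fun _ b => b ^ 2) (by fun_prop)).1
  have i6 := (key (fun a b => nl N b * a) (by fun_prop)).1
  have i7 := (key (fun a b => NL N (a + β * b) - NL N a - NL N (β * b)
          - nl N a * (β * b) - nl N (β * b) * a) (by fun_prop)).1
  have hsum : ∫ x in Ω, (lam * (fn v x + β * fn w x) ^ 2 / 2 + NL N (fn v x + β * fn w x))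
      = (∫ x in Ω, (lam * fn v x ^ 2 / 2 + NL N (fn v x)))
        + β * (∫ x in Ω, (lam * fn v x + nl N (fn v x)) * fn w x)
        + (∫ x in Ω, NL N (fn w x)) + lam / 2 * (∫ x in Ω, fn w x ^ 2)
        + β * (∫ x in Ω, nl N (fn w x) * fn v x)
        + ∫ x in Ω, (NL N (fn v x + β * fn w x) - NL N (fn v x) - NL N (β * fn w x)
          - nl N (fn v x) * (β * fn w x) - nl N (β * fn w x) * fn v x) := by
    rw [← integral_const_mul, ← integral_const_mul, ← integral_const_mul]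
    have j3 := i3.const_mul β
    have j5 := i5.const_mul (lam / 2)
    have j6 := i6.const_mul β
    have k1 := add_int i2 j3
    have k2 := add_int k1 i4
    have k3 := add_int k2 j5
    have k4 := add_int k3 j6
    rw [← integral_add i2 j3, ← integral_add k1 i4, ← integral_add k2 j5,
      ← integral_add k3 j6, ← integral_add k4 i7]
    refine integral_congr_ae (ae_of_all _ fun x => ?_)
    simp only [hNLβ, hnlβ]
    have : (fn v x + β * fn w x) ^ 2 = fn v x ^ 2 + 2 * β * fn v x * fn w x + fn w x ^ 2 := by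
      have h9 : (fn v x + β * fn w x) ^ 2
        = fn v x ^ 2 + 2 * β * fn v x * fn w x + β ^ 2 * fn w x ^ 2 := by ring
      rw [h9, hβ2, one_mul]
    rw [this]
    ring
  rw [hsum]
  ring

/-- the projected bubble is bounded by a constant (depending on `μ`) -/
theorem WW_bdd (hN : 3 ≤ N) {ρ : ℝ} {e : E N} {d μ : ℝ} (hμ : 0 < μ)
    (h : ∀ᵐ x, x ∈ ann N ρ → 0 ≤ fn (WW e ρ d μ) x ∧
      fn (WW e ρ d μ) x ≤ bub N μ (cen e d) x) :
    ∀ᵐ x, x ∈ ann N ρ → |fn (WW e ρ d μ) x| ≤ alN N * μ ^ (-cc N) := by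
  filter_upwards [h] with x hx hxm
  obtain ⟨h1, h2⟩ := hx hxm
  rw [abs_of_nonneg h1]
  exact h2.trans (bub_le2 hN hμ _ _)

theorem V_bdd {η : ℝ} (F : Fam N η) (n : ℕ) : ∀ x ∈ ann N F.ρ, |F.V n x| ≤ F.K := fun x hx => by
  have h1 := F.V_le n x hx
  have h2 : 0 < ‖x‖ := F.hρ.trans hx.1
  have := F.hK
  nlinarith

/-- the common part of the two energy expansions -/
theorem energy_pre (hN : 3 ≤ N) (hN5 : N ≤ 5) {η : ℝ} (F : Fam N η) :
    ∃ C d₁ : ℝ, 0 < C ∧ 0 < d₁ ∧ F.ρ < 1 - d₁ ∧ ∀ (n : ℕ) (d μ β : ℝ), 0 < d →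
      d < d₁ → 0 < μ → μ ≤ d ^ 2 → (β = 1 ∨ β = -1) →
      |JJ F.ρ (F.lam n) (F.v n + β • WW F.e F.ρ d μ) - JJ F.ρ (F.lam n) (F.v n) - sN N / N
        - (aN N * alN N / 2 * (μ ^ cc N) ^ 2 * (2 * d) ^ (2 - (N : ℝ))
          - β * (aN N * μ ^ cc N * F.V n (cen F.e d)))
        + F.lam n / 2 * ∫ x in ann N F.ρ, fn (WW F.e F.ρ d μ) x ^ 2| ≤ C * Er N d μ := by
  obtain ⟨C₀, d₀, hC₀, hd₀, hρ0, h0⟩ := proj_est hN hN5 F.hρ F.hρ1
  obtain ⟨C₁, d₁, hC₁, hd₁, hρ1, h1⟩ := int_self hN hN5 F.hρ F.hρ1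
  obtain ⟨C₂, d₂, hC₂, hd₂, hρ2, h2⟩ := int_lin hN hN5 F.hρ F.hρ1 F.K
  obtain ⟨C₃, d₃, hC₃, hd₃, hρ3, h3⟩ := int_inter hN hN5 F.hρ F.hρ1 F.K
  set d₁' := min (min d₀ d₁) (min (min d₂ d₃) F.d₀) with hd'
  have m0 : d₁' ≤ d₀ := (min_le_left _ _).trans (min_le_left _ _)
  have m1 : d₁' ≤ d₁ := (min_le_left _ _).trans (min_le_right _ _)
  have m2 : d₁' ≤ d₂ := (min_le_right _ _).trans ((min_le_left _ _).trans (min_le_left _ _))
  have m3 : d₁' ≤ d₃ := (min_le_right _ _).trans ((min_le_left _ _).trans (min_le_right _ _))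
  have m4 : d₁' ≤ F.d₀ := (min_le_right _ _).trans (min_le_right _ _)
  refine ⟨C₁ + C₂ + C₃, d₁', by positivity,
    lt_min (lt_min hd₀ hd₁) (lt_min (lt_min hd₂ hd₃) F.hd₀), by linarith, ?_⟩
  intro n d μ β hd hdd hμ hμd hβ
  have hW : WW F.e F.ρ d μ ∈ DD (ann N F.ρ) := T_mem _ _
  have hWae := h0 F.e d μ F.he hd (hdd.trans_le m0) hμ hμd
  have hWb := WW_bdd (e := F.e) (ρ := F.ρ) (d := d) hN hμ (by
    filter_upwards [hWae] with x hx hxm
    exact ⟨(hx hxm).1, (hx hxm).2.1⟩)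
  obtain ⟨hr1, hr2, hr3⟩ := F.rep n
  have hid := energy_id hN hN5 (F.v_sol n) hr3 (V_bdd F n) hW hWb hβ
  have a1 := h1 F.e d μ F.he hd (hdd.trans_le m1) hμ hμd
  have a2 := h2 F.e d μ F.he hd (hdd.trans_le m2) hμ hμd (F.V n) hr1 (F.V_le n) (fun x hx => by
    have h5 := F.hold n d ⟨hd, hdd.trans_le m4⟩ x hx
    exact h5)
  have a3 := h3 F.e d μ β F.he hd (hdd.trans_le m3) hμ hμd hβ (F.V n) hr1 (F.V_le n)
  rw [hid]
  set P := ‖WW F.e F.ρ d μ‖ ^ 2 / 2 - ∫ x in ann N F.ρ, NL N (fn (WW F.e F.ρ d μ) x) with hP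
  set Q := ∫ x in ann N F.ρ, nl N (fn (WW F.e F.ρ d μ) x) * F.V n x with hQ
  set R := ∫ x in ann N F.ρ, (NL N (F.V n x + β * fn (WW F.e F.ρ d μ) x) - NL N (F.V n x)
          - NL N (β * fn (WW F.e F.ρ d μ) x) - nl N (F.V n x) * (β * fn (WW F.e F.ρ d μ) x)
          - nl N (β * fn (WW F.e F.ρ d μ) x) * F.V n x) with hR
  set S := ∫ x in ann N F.ρ, fn (WW F.e F.ρ d μ) x ^ 2 with hS
  have heq : P - F.lam n / 2 * S - β * Q - R - sN N / N
        - (aN N * alN N / 2 * (μ ^ cc N) ^ 2 * (2 * d) ^ (2 - (N : ℝ))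
          - β * (aN N * μ ^ cc N * F.V n (cen F.e d))) + F.lam n / 2 * S
      = (P - sN N / N - aN N * alN N / 2 * (μ ^ cc N) ^ 2 * (2 * d) ^ (2 - (N : ℝ)))
        + -(β * (Q - aN N * μ ^ cc N * F.V n (cen F.e d))) + -R := by ring
  rw [heq]
  refine (abs_add_three _ _ _).trans ?_
  rw [abs_neg, abs_neg, abs_mul]
  have hβa : |β| = 1 := by rcases hβ with rfl | rfl <;> simp
  rw [hβa, one_mul]
  calc _ ≤ C₁ * Er N d μ + C₂ * Er N d μ + C₃ * Er N d μ := add_le_add (add_le_add a1 a2) a3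
    _ = _ := by ring

theorem lam_bdd {η : ℝ} (F : Fam N η) : ∃ Λ : ℝ, 0 < Λ ∧ ∀ n, |F.lam n| ≤ Λ := by
  obtain ⟨M, hM⟩ := F.lam_lim.norm.bddAbove_range
  refine ⟨|M| + 1, by positivity, fun n => ?_⟩
  have := hM ⟨n, rfl⟩
  simp only [Real.norm_eq_abs] at this
  linarith [le_abs_self M]

end D6

open D6

theorem energy34 (hN : N = 3 ∨ N = 4) {η : ℝ} (F : Fam N η) :
    ∃ C d₁ : ℝ, 0 < C ∧ 0 < d₁ ∧ F.ρ < 1 - d₁ ∧ ∀ (n : ℕ) (d μ : ℝ), 0 < d →
      d < d₁ → 0 < μ → μ ≤ d ^ 2 →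
      |JJ F.ρ (F.lam n) (F.v n + WW F.e F.ρ d μ) - JJ F.ρ (F.lam n) (F.v n) - sN N / N
        - (aN N * alN N / 2 * (μ ^ cc N) ^ 2 * (2 * d) ^ (2 - (N : ℝ))
          - aN N * μ ^ cc N * F.V n (cen F.e d))| ≤ C * Er N d μ := by
  obtain ⟨C₀, d₀, hC₀, hd₀, hρ0, h0⟩ := energy_pre (by omega) (by omega) F
  obtain ⟨C₁, d₁, hC₁, hd₁, hρ1, h1⟩ := int_sq34 hN F.hρ F.hρ1
  obtain ⟨Λ, hΛ, hlam⟩ := lam_bdd F
  refine ⟨C₀ + Λ * C₁, min d₀ d₁, by positivity, lt_min hd₀ hd₁, ?_, ?_⟩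
  · have := min_le_left d₀ d₁
    linarith
  intro n d μ hd hdd hμ hμd
  have a0 := h0 n d μ 1 hd (hdd.trans_le (min_le_left _ _)) hμ hμd (Or.inl rfl)
  have a1 := h1 F.e d μ F.he hd (hdd.trans_le (min_le_right _ _)) hμ hμd
  rw [one_smul, one_mul] at a0
  set X := JJ F.ρ (F.lam n) (F.v n + WW F.e F.ρ d μ) - JJ F.ρ (F.lam n) (F.v n) - sN N / N
        - (aN N * alN N / 2 * (μ ^ cc N) ^ 2 * (2 * d) ^ (2 - (N : ℝ))
          - aN N * μ ^ cc N * F.V n (cen F.e d)) with hX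
  set S := ∫ x in ann N F.ρ, fn (WW F.e F.ρ d μ) x ^ 2 with hS
  have hb : |F.lam n / 2 * S| ≤ Λ * (C₁ * Er N d μ) := by
    rw [abs_mul, abs_div, abs_two]
    have h5 : |F.lam n| / 2 ≤ Λ := by linarith [hlam n]
    exact mul_le_mul h5 a1 (abs_nonneg _) hΛ.le
  calc |X| = |(X + F.lam n / 2 * S) - F.lam n / 2 * S| := by ring_nf
    _ ≤ |X + F.lam n / 2 * S| + |F.lam n / 2 * S| := abs_sub _ _
    _ ≤ C₀ * Er N d μ + Λ * (C₁ * Er N d μ) := add_le_add a0 hb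
    _ = _ := by ring

theorem energy5 {η : ℝ} (F : Fam 5 η) :
    ∃ C d₁ : ℝ, 0 < C ∧ 0 < d₁ ∧ F.ρ < 1 - d₁ ∧ ∀ (n : ℕ) (d μ : ℝ), 0 < d →
      d < d₁ → 0 < μ → μ ≤ d ^ 2 →
      |JJ F.ρ (F.lam n) (F.v n - WW F.e F.ρ d μ) - JJ F.ρ (F.lam n) (F.v n) - sN 5 / 5
        - (aN 5 * μ ^ cc 5 * F.V n (cen F.e d) - F.lam n / 2 * bN 5 * μ ^ 2)| ≤ C * Er 5 d μ := by
  obtain ⟨C₀, d₀, hC₀, hd₀, hρ0, h0⟩ := energy_pre (by omega) (by omega) F
  obtain ⟨C₁, d₁, hC₁, hd₁, hρ1, h1⟩ := int_sq5 F.hρ F.hρ1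
  obtain ⟨Λ, hΛ, hlam⟩ := lam_bdd F
  have hA : 0 < aN 5 * alN 5 / 2 := by
    have := aN_pos (N := 5) (by norm_num)
    have := BI.alN_pos (N := 5) (by norm_num)
    positivity
  refine ⟨C₀ + Λ * C₁ + aN 5 * alN 5 / 2, min d₀ d₁, by positivity, lt_min hd₀ hd₁, ?_, ?_⟩
  · have := min_le_left d₀ d₁
    linarith
  intro n d μ hd hdd hμ hμd
  have a0 := h0 n d μ (-1) hd (hdd.trans_le (min_le_left _ _)) hμ hμd (Or.inr rfl)
  have a1 := h1 F.e d μ F.he hd (hdd.trans_le (min_le_right _ _)) hμ hμd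
  rw [neg_one_smul, neg_one_mul, ← sub_eq_add_neg (F.v n)] at a0
  set S := ∫ x in ann 5 F.ρ, fn (WW F.e F.ρ d μ) x ^ 2 with hS
  set X := JJ F.ρ (F.lam n) (F.v n - WW F.e F.ρ d μ) - JJ F.ρ (F.lam n) (F.v n) with hX
  set G := aN 5 * μ ^ cc 5 * F.V n (cen F.e d) with hG
  set H := aN 5 * alN 5 / 2 * (μ ^ cc 5) ^ 2 * (2 * d) ^ (2 - ((5 : ℕ) : ℝ)) with hH
  have hHb : |H| ≤ aN 5 * alN 5 / 2 * Er 5 d μ := by
    have h2d : 0 < 2 * d := by linarith
    have h6 : (μ ^ cc 5) ^ 2 = μ ^ 3 := by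
      rw [D4b.cc5, ← Real.rpow_natCast, ← Real.rpow_mul hμ.le, ← Real.rpow_natCast]
      norm_num
    have h7 : (μ ^ cc 5) ^ 2 * (2 * d) ^ (2 - ((5 : ℕ) : ℝ)) ≤ Er 5 d μ := by
      rw [D4b.dpow5 h2d, h6, D4b.Er5]
      have h8 : 0 < μ ^ ((13 : ℝ) / 6) := by positivity
      have h9 : μ ^ 3 * ((2 * d) ^ 3)⁻¹ ≤ μ ^ 3 / d ^ 3 := by
        rw [div_eq_mul_inv]
        refine mul_le_mul_of_nonneg_left ?_ (by positivity)
        refine inv_anti₀ (by positivity) ?_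
        exact pow_le_pow_left₀ hd.le (by linarith) 3
      linarith
    have h10 : 0 ≤ H := by positivity
    rw [abs_of_nonneg h10, hH, mul_assoc]
    exact mul_le_mul_of_nonneg_left h7 hA.le
  have hb : |F.lam n / 2 * (S - bN 5 * μ ^ 2)| ≤ Λ * (C₁ * Er 5 d μ) := by
    rw [abs_mul, abs_div, abs_two]
    have h5 : |F.lam n| / 2 ≤ Λ := by linarith [hlam n]
    exact mul_le_mul h5 a1 (abs_nonneg _) hΛ.le
  have heq : X - sN 5 / 5 - (G - F.lam n / 2 * bN 5 * μ ^ 2)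
      = (X - sN 5 / ((5 : ℕ) : ℝ) - (H - -G) + F.lam n / 2 * S)
        + -(F.lam n / 2 * (S - bN 5 * μ ^ 2)) + H := by
    push_cast
    ring
  rw [heq]
  refine (abs_add_three _ _ _).trans ?_
  rw [abs_neg]
  calc _ ≤ C₀ * Er 5 d μ + Λ * (C₁ * Er 5 d μ) + aN 5 * alN 5 / 2 * Er 5 d μ :=
        add_le_add (add_le_add a0 hb) hHb
    _ = _ := by ring

namespace D6

theorem td_ge (hN : 3 ≤ N) : 1 ≤ td N := by
  unfold td
  have h : (3 : ℝ) ≤ N := by exact_mod_cast hN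
  rw [le_div_iff₀ (by linarith)]
  linarith

theorem nq_le2 {q : ℝ} (hq : 1 ≤ q) {Ω : Set (E N)} {f g h : E N → ℝ} {a b : ℝ}
    (ha : 0 ≤ a) (hb : 0 ≤ b) (hg : Mq q Ω g) (hh : Mq q Ω h)
    (hle : ∀ᵐ x ∂(volume.restrict Ω), |f x| ≤ a * g x + b * h x) :
    nq q Ω f ≤ a * nq q Ω g + b * nq q Ω h := by
  have h1 : (1 : ℝ≥0∞) ≤ ENNReal.ofReal q := by
    rw [← ENNReal.ofReal_one]
    exact ENNReal.ofReal_le_ofReal hq
  unfold nq
  set μ := (volume : Measure (E N)).restrict Ω with hμ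
  have e1 : eLpNorm f (ENNReal.ofReal q) μ ≤
      ENNReal.ofReal a * eLpNorm g (ENNReal.ofReal q) μ
        + ENNReal.ofReal b * eLpNorm h (ENNReal.ofReal q) μ := by
    calc eLpNorm f (ENNReal.ofReal q) μ
        ≤ eLpNorm (fun x => a * g x + b * h x) (ENNReal.ofReal q) μ := by
          refine eLpNorm_mono_ae ?_
          filter_upwards [hle] with x hx
          rw [Real.norm_eq_abs, Real.norm_eq_abs]
          exact hx.trans (le_abs_self _)
      _ ≤ eLpNorm (fun x => a * g x) (ENNReal.ofReal q) μ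
          + eLpNorm (fun x => b * h x) (ENNReal.ofReal q) μ :=
          eLpNorm_add_le (hg.1.const_mul a) (hh.1.const_mul b) h1
      _ = _ := by
          rw [show (fun x => a * g x) = a • g from rfl, show (fun x => b * h x) = b • h from rfl,
            eLpNorm_const_smul, eLpNorm_const_smul, Real.enorm_eq_ofReal_abs,
            Real.enorm_eq_ofReal_abs, abs_of_nonneg ha, abs_of_nonneg hb]
  have f1 : ENNReal.ofReal a * eLpNorm g (ENNReal.ofReal q) μ ≠ ⊤ :=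
    ENNReal.mul_ne_top ENNReal.ofReal_ne_top hg.2.ne
  have f2 : ENNReal.ofReal b * eLpNorm h (ENNReal.ofReal q) μ ≠ ⊤ :=
    ENNReal.mul_ne_top ENNReal.ofReal_ne_top hh.2.ne
  calc (eLpNorm f (ENNReal.ofReal q) μ).toReal
      ≤ (ENNReal.ofReal a * eLpNorm g (ENNReal.ofReal q) μ
        + ENNReal.ofReal b * eLpNorm h (ENNReal.ofReal q) μ).toReal :=
        ENNReal.toReal_mono (ENNReal.add_ne_top.2 ⟨f1, f2⟩) e1
    _ = _ := by
        rw [ENNReal.toReal_add f1 f2, ENNReal.toReal_mul, ENNReal.toReal_mul,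
          ENNReal.toReal_ofReal ha, ENNReal.toReal_ofReal hb]

end D6

theorem residual (hN : 3 ≤ N) (hN5 : N ≤ 5) {η : ℝ} (F : Fam N η) :
    ∃ C d₁ : ℝ, 0 < C ∧ 0 < d₁ ∧ F.ρ < 1 - d₁ ∧ ∀ (n : ℕ) (d μ β : ℝ), 0 < d →
      d < d₁ → 0 < μ → μ ≤ d ^ 2 → (β = 1 ∨ β = -1) →
      ∀ u : XS F.e F.ρ, (u : LV N) = F.v n + β • WW F.e F.ρ d μ →
        ‖gg F.e F.ρ (F.lam n) u‖ ≤ C * μ ^ cc N := by
  obtain ⟨C₀, d₀, hC₀, hd₀, hρ0, h0⟩ := proj_est hN hN5 F.hρ F.hρ1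
  obtain ⟨C₁, d₁, hC₁, hd₁, hρ1, h1⟩ := proj_small hN hN5 F.hρ F.hρ1
  obtain ⟨Λ, hΛ, hlam⟩ := lam_bdd F
  obtain ⟨A, hA, hsplit⟩ := nl_split hN hN5
  have hpm := BI.pm_pos hN
  have hSS := SS_pos (N := N)
  have hK := F.hK
  refine ⟨SS N * (C₁ + Λ * C₁ + A * (F.K ^ pm N * C₁ + F.K * C₁)), min d₀ d₁, by positivity,
    lt_min hd₀ hd₁, ?_, ?_⟩
  · have := min_le_left d₀ d₁
    linarith
  intro n d μ β hd hdd hμ hμd hβ u hu
  set w := WW F.e F.ρ d μ with hw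
  set Ω := ann N F.ρ with hΩ
  have hΩm : MeasurableSet Ω := (D4b.annOpen F.ρ).measurableSet
  have hfin := vol_fin (N := N) F.ρ
  have hwD : w ∈ DD Ω := T_mem _ _
  have hwu : w ∈ DD (univ : Set (E N)) := DD_le_univ58 _ hwD
  have hvu : F.v n ∈ DD (univ : Set (E N)) := DD_le_univ58 _ (F.v_sol n).1
  have hWae := h0 F.e d μ F.he hd (hdd.trans_le (min_le_left _ _)) hμ hμd
  have hWb := WW_bdd (e := F.e) (ρ := F.ρ) (d := d) hN hμ (by
    filter_upwards [hWae] with x hx hxm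
    exact ⟨(hx hxm).1, (hx hxm).2.1⟩)
  obtain ⟨s1, s2, s3, -⟩ := h1 F.e d μ F.he hd (hdd.trans_le (min_le_right _ _)) hμ hμd
  obtain ⟨hr1, hr2, hr3⟩ := F.rep n
  have hvm : AEStronglyMeasurable (fn (F.v n)) (volume.restrict Ω) := (fn_meas _).restrict
  have hwm : AEStronglyMeasurable (fn w) (volume.restrict Ω) := (fn_meas _).restrict
  have hvK : ∀ᵐ x, x ∈ Ω → |fn (F.v n) x| ≤ F.K := by
    filter_upwards [hr3] with x hx hxm
    rw [hx]
    exact V_bdd F n x hxm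
  have hnlc : Continuous (nl N) :=
    continuous_iff_continuousAt.2 fun u => (hasDerivAt_nl hN hN5 u).continuousAt
  have key := fun (G : ℝ → ℝ → ℝ) (hG : Continuous (fun p : ℝ × ℝ => G p.1 p.2)) =>
    (int_cont hΩm hfin hvm hwm hvK hWb hG).2 (td N)
  have hfnu : fn (F.v n + β • w) =ᵐ[volume] fun x => fn (F.v n) x + β * fn w x := by
    filter_upwards [fn_add hN hvu (Submodule.smul_mem _ β hwu), fn_smul hN β hwu] with x h1 h2
    rw [h1, h2]
  set U := bub N μ (cen F.e d) with hU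
  have hg1 : Mq (td N) Ω (fun x => F.lam n * fn (F.v n) x + nl N (fn (F.v n) x)) :=
    key (fun a _ => F.lam n * a + nl N a) (by fun_prop)
  have hg2 : Mq (td N) Ω (fun x => nl N (U x)) := by
    have := (Mq_nl_bub hN hμ (cen F.e d)).1
    exact Mq_univ58 Ω this
  have hf2 : Mq (td N) Ω (fun x => fn w x) := key (fun _ b => b) (by fun_prop)
  have hf1' : Mq (td N) Ω (fun x => nl N (fn w x)) := key (fun _ b => nl N b) (by fun_prop)
  have hf1 : Mq (td N) Ω (fun x => nl N (U x) - nl N (fn w x)) := hg2.sub hf1'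
  have hf3 : Mq (td N) Ω (fun x => nl N (fn (F.v n) x + β * fn w x) - nl N (fn (F.v n) x)
      - nl N (β * fn w x)) :=
    key (fun a b => nl N (a + β * b) - nl N a - nl N (β * b)) (by fun_prop)
  have hg3 : Mq (td N) Ω (fun x => F.lam n * (fn (F.v n) x + β * fn w x)
      + nl N (fn (F.v n) x + β * fn w x)) :=
    key (fun a b => F.lam n * (a + β * b) + nl N (a + β * b)) (by fun_prop)
  have hf4 : Mq (td N) Ω (fun x => fn w x ^ pm N) :=
    key (fun _ b => b ^ pm N) (by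
      exact (Real.continuous_rpow_const hpm.le).comp continuous_snd)
  have hnlβ : ∀ s, nl N (β * s) = β * nl N s := fun s => by
    rcases hβ with rfl | rfl
    · rw [one_mul, one_mul]
    · rw [neg_one_mul, neg_one_mul, nl_neg]
  have hβa : |β| = 1 := by rcases hβ with rfl | rfl <;> simp
  -- the decomposition
  have hTv : F.v n = T Ω (fun x => F.lam n * fn (F.v n) x + nl N (fn (F.v n) x)) :=
    (weak_iff_T hN hΩm hg1).1 (F.v_sol n)
  have hTw : w = T Ω (fun x => nl N (U x)) := rfl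
  have hTu : T Ω (fun x => F.lam n * fn (u : LV N) x + nl N (fn (u : LV N) x))
      = T Ω (fun x => F.lam n * (fn (F.v n) x + β * fn w x)
        + nl N (fn (F.v n) x + β * fn w x)) := by
    refine T_congr hΩm ?_
    rw [hu]
    filter_upwards [hfnu] with x hx _
    rw [hx]
  have hgg : (gg F.e F.ρ (F.lam n) u : LV N) =
      β • T Ω (fun x => nl N (U x) - nl N (fn w x)) - (F.lam n * β) • T Ω (fun x => fn w x)
        - T Ω (fun x => nl N (fn (F.v n) x + β * fn w x) - nl N (fn (F.v n) x)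
          - nl N (β * fn w x)) := by
    rw [gg_apply hN hN5 F.hρ F.hρ1 F.he, hTu, hu]
    have h9 : F.v n + β • w = T Ω (fun x => F.lam n * fn (F.v n) x + nl N (fn (F.v n) x))
        + β • T Ω (fun x => nl N (U x)) := by
      rw [← hTv, ← hTw]
    rw [h9]
    have m1 : Mq (td N) Ω (fun x => β * nl N (U x)) := hg2.const_mul β
    have m2 : Mq (td N) Ω (fun x => F.lam n * fn (F.v n) x + nl N (fn (F.v n) x)
      + β * nl N (U x)) := hg1.add m1
    have m3 : Mq (td N) Ω (fun x => β * (nl N (U x) - nl N (fn w x))) := hf1.const_mul β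
    have m4 : Mq (td N) Ω (fun x => F.lam n * β * fn w x) := hf2.const_mul (F.lam n * β)
    have m5 : Mq (td N) Ω (fun x => β * (nl N (U x) - nl N (fn w x))
      - F.lam n * β * fn w x) := m3.sub m4
    rw [← T_smul hN hΩm β hg2, ← T_add hN hΩm hg1 m1, ← T_sub hN hΩm m2 hg3,
      ← T_smul hN hΩm β hf1, ← T_smul hN hΩm (F.lam n * β) hf2,
      ← T_sub hN hΩm m3 m4, ← T_sub hN hΩm m5 hf3]
    refine T_congr hΩm (ae_of_all _ fun x _ => ?_)
    rw [hnlβ]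
    ring
  have n1 : ‖T Ω (fun x => nl N (U x) - nl N (fn w x))‖ ≤ SS N * (C₁ * μ ^ cc N) :=
    (T_norm hN hΩm hf1).trans (mul_le_mul_of_nonneg_left s3 hSS.le)
  have n2 : ‖T Ω (fun x => fn w x)‖ ≤ SS N * (C₁ * μ ^ cc N) :=
    (T_norm hN hΩm hf2).trans (mul_le_mul_of_nonneg_left s1 hSS.le)
  have n3 : ‖T Ω (fun x => nl N (fn (F.v n) x + β * fn w x) - nl N (fn (F.v n) x)
          - nl N (β * fn w x))‖ ≤
      SS N * (A * F.K ^ pm N * (C₁ * μ ^ cc N) + A * F.K * (C₁ * μ ^ cc N)) := by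
    refine (T_norm hN hΩm hf3).trans (mul_le_mul_of_nonneg_left ?_ hSS.le)
    have h5 := nq_le2 (td_ge hN) (f := fun x => nl N (fn (F.v n) x + β * fn w x)
      - nl N (fn (F.v n) x) - nl N (β * fn w x)) (a := A * F.K ^ pm N) (b := A * F.K)
      (by positivity) (by positivity) hf2 hf4 (by
        rw [ae_restrict_iff' hΩm]
        filter_upwards [hvK, hWae] with x hx1 hx2 hxm
        obtain ⟨w0, -⟩ := hx2 hxm
        have hx1 := hx1 hxm
        have h6 := hsplit (fn (F.v n) x) (β * fn w x)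
        rw [abs_mul, hβa, one_mul, abs_of_nonneg w0] at h6
        refine h6.trans ?_
        have h7 : |fn (F.v n) x| ^ pm N ≤ F.K ^ pm N :=
          Real.rpow_le_rpow (abs_nonneg _) hx1 hpm.le
        have h8 : 0 ≤ fn w x ^ pm N := Real.rpow_nonneg w0 _
        calc A * (|fn (F.v n) x| ^ pm N * fn w x + |fn (F.v n) x| * fn w x ^ pm N)
            ≤ A * (F.K ^ pm N * fn w x + F.K * fn w x ^ pm N) :=
              mul_le_mul_of_nonneg_left (add_le_add (mul_le_mul_of_nonneg_right h7 w0)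
                (mul_le_mul_of_nonneg_right hx1 h8)) hA.le
          _ = _ := by ring)
    refine h5.trans (add_le_add (mul_le_mul_of_nonneg_left s1 (by positivity))
      (mul_le_mul_of_nonneg_left s2 (by positivity)))
  have hlam' := hlam n
  show ‖(gg F.e F.ρ (F.lam n) u : LV N)‖ ≤ _
  rw [hgg]
  have hM : 0 ≤ C₁ * μ ^ cc N := by positivity
  calc ‖β • T Ω (fun x => nl N (U x) - nl N (fn w x)) - (F.lam n * β) • T Ω (fun x => fn w x)
        - T Ω (fun x => nl N (fn (F.v n) x + β * fn w x) - nl N (fn (F.v n) x)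
          - nl N (β * fn w x))‖
      ≤ ‖β • T Ω (fun x => nl N (U x) - nl N (fn w x))‖ + ‖(F.lam n * β) • T Ω (fun x => fn w x)‖
        + ‖T Ω (fun x => nl N (fn (F.v n) x + β * fn w x) - nl N (fn (F.v n) x)
          - nl N (β * fn w x))‖ :=
        (norm_sub_le _ _).trans (add_le_add_left (norm_sub_le _ _) _)
    _ ≤ SS N * (C₁ * μ ^ cc N) + Λ * (SS N * (C₁ * μ ^ cc N))
        + SS N * (A * F.K ^ pm N * (C₁ * μ ^ cc N) + A * F.K * (C₁ * μ ^ cc N)) := by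
        rw [norm_smul, norm_smul, Real.norm_eq_abs, Real.norm_eq_abs, hβa, one_mul, abs_mul, hβa,
          mul_one]
        exact add_le_add (add_le_add n1 (mul_le_mul hlam' n2 (norm_nonneg _) hΛ.le)) n3
    _ = _ := by ring

end Pool.Agent.helper13.BN
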